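import Pool.Agent.Lib.MP_065e13_lc.Glue

/-!
# Sign rank at most three of a matrix of Booleans reduces to the recognition of ball graphs
-/

namespace Pool.Agent.Lib.MP_065e13_lc

open Pool.Agent.Lib.PolyTime Pool.Agent.Lib.MP_0f8b55_lc

/-- The sign matrix, given by the list of its rows, has sign rank at most `3`. -/
def SR3 (M : List (List Bool)) : Prop :=
  SignRankLE 3 (fun (i : Fin M.length) (j : Fin (M.headD []).length) =>
    (M.getD i []).getD j false)

/-- An entry of a row. -/
def entry (r : List Bool) (c : ℕ) : Bool := r.getD c false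

/-- The graph of a sign matrix, for dimension `d`. -/
def graphOfMat (d : ℕ) (M : List (List Bool)) : GraphCode :=
  if M.isEmpty then (0, [])
  else ballCode (d - 2) (M.headD []) M (List.range (M.headD []).length) entry

theorem signRankLE_congr {k : ℕ} {ι κ κ' : Type} [Fintype κ] [Fintype κ'] (e : κ ≃ κ')
    (M : ι → κ → Bool) (M' : ι → κ' → Bool) (h : ∀ i j, M i j = M' i (e j)) :
    SignRankLE k M ↔ SignRankLE k M' := by
  constructor
  · rintro ⟨A, hA, hM⟩
    refine ⟨A.submatrix id e.symm, ?_, fun i j => ?_⟩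
    · refine le_trans (le_of_eq ?_) hA
      exact Matrix.rank_submatrix A (Equiv.refl ι) e.symm
    · have := hM i (e.symm j)
      rw [h, Equiv.apply_symm_apply] at this
      exact this
  · rintro ⟨A, hA, hM⟩
    refine ⟨A.submatrix id e, ?_, fun i j => ?_⟩
    · refine le_trans (le_of_eq ?_) hA
      exact Matrix.rank_submatrix A (Equiv.refl ι) e
    · have := hM i (e j)
      rw [← h] at this
      exact this

theorem graphOfMat_iff {d : ℕ} (hd : 3 ≤ d) (M : List (List Bool)) :
    SR3 M ↔ IsBallGraph d (graphOfMat d M).graph := by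
  rcases M with _ | ⟨r, M⟩
  · have h1 : SR3 [] := by
      refine ⟨0, ?_, fun i => i.elim0⟩
      rw [Matrix.rank_zero]
      omega
    have h2 : IsBallGraph d (graphOfMat d []).graph :=
      ⟨fun _ => 0, fun _ => 1, fun _ => one_pos, fun u => u.elim0⟩
    exact ⟨fun _ => h2, fun _ => h1⟩
  · have e1 : graphOfMat d (r :: M) = ballCode (d - 2) r (r :: M) (List.range r.length) entry := rfl
    have key := ballCode_iff (t := d - 2) (by omega) (r :: M) (List.range r.length) entry
      ⟨0, by simp⟩
    have e2 : d - 2 + 2 = d := by omega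
    rw [e2] at key
    rw [e1]
    refine Iff.trans ?_ key
    refine signRankLE_congr (finCongr (by simp)) _ _ (fun i j => ?_)
    simp only [matOf, entry, Fin.getElem_fin, finCongr_apply, Fin.val_cast, List.getElem_range]
    congr 1
    rw [List.getD_eq_getElem?_getD, List.getElem?_eq_getElem i.2, Option.getD_some]

/-! ### Polynomial time -/

variable {α : Type} [Enc α]

theorem PT.getD' {f : α → List Bool} {g : α → ℕ} (hf : PT f) (hg : PT g) :
    PT (fun a => (f a).getD (g a) false) :=
  (PT.optCases (f := fun a => (f a)[g a]?) (g := fun _ => false) (h := fun _ b => b)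
    (PT.getElem? hg hf) (PT.const _) PT.snd).congr (fun a => by
      rw [List.getD_eq_getElem?_getD]
      cases (f a)[g a]? <;> rfl)

theorem PT.beq {f g : α → Bool} (hf : PT f) (hg : PT g) : PT (fun a => f a == g a) :=
  (PT.cond hf hg (PT.not hg)).congr (fun a => by cases f a <;> cases g a <;> rfl)

/-- Names for the matrices at hand. -/
abbrev Nb : Type := Nm (List Bool) ℕ

theorem pt_adjCR {f : α → List Bool} {g : α → (ℕ × ℕ) × (List Bool × Bool)}
    {h : α → ((List Bool × ℕ) ⊕ ℕ) × Bool} (hf : PT f) (hg : PT g) (hh : PT h) :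
    PT (fun a => adjCR (f a) entry (g a) (h a)) := by
  refine (PT.sumCases (f := fun a => (h a).1)
    (g := fun a r => (r.1.getD (g a).1.1 false == (f a).getD (g a).1.1 false))
    (h := fun a s => (g a).2.1.getD s false) hh.fst' ?_ ?_).congr (fun a => ?_)
  · exact PT.beq (PT.getD' PT.snd.fst' (hg.comp PT.fst).fst'.fst')
      (PT.getD' (hf.comp PT.fst) (hg.comp PT.fst).fst'.fst')
  · exact PT.getD' (hg.comp PT.fst).snd'.fst' PT.snd
  · unfold adjCR entry
    cases (h a).1 <;> rfl

theorem pt_adjN {f : α → List Bool} {g h : α → Nb} (hf : PT f) (hg : PT g) (hh : PT h) :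
    PT (fun a => adjN (f a) entry (g a) (h a)) := by
  have e0 : ∀ {β : Type} [Enc β] {k : β → ℕ}, PT k → ∀ c : ℕ, PT (fun b => decide (k b = c)) :=
    fun hk c => PT.eq hk (PT.const c)
  refine (PT.sumCases (f := g)
    (g := fun a x => match h a with
      | .inl _ => true
      | .inr z => match z with
        | .inl y => adjCR (f a) entry x y
        | .inr k => if k = 0 then x.2.2 else decide (k = 1))
    (h := fun a z => match z with
      | .inl y => (match h a with
        | .inl _ => false
        | .inr z' => match z' with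
          | .inl _ => true
          | .inr k => if k = 0 then false else y.2)
      | .inr k => (match h a with
        | .inl _ => false
        | .inr z' => match z' with
          | .inl _ => false
          | .inr k' => decide (k = 0) && decide (k' = 1))) hg ?_ ?_).congr (fun a => ?_)
  · refine (PT.sumCases (f := fun x : α × ((ℕ × ℕ) × (List Bool × Bool)) => h x.1)
      (g := fun _ _ => true) (h := fun x z => match z with
        | .inl y => adjCR (f x.1) entry x.2 y
        | .inr k => if k = 0 then x.2.2.2 else decide (k = 1)) (hh.comp PT.fst) (PT.const _)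
        ?_).congr (fun x => by rcases h x.1 with x' | y' | k' <;> rfl)
    refine (PT.sumCases
      (f := fun x : (α × ((ℕ × ℕ) × (List Bool × Bool))) × ((((List Bool × ℕ) ⊕ ℕ) × Bool) ⊕ ℕ) =>
        x.2)
      (g := fun x y => adjCR (f x.1.1) entry x.1.2 y)
      (h := fun x k => if k = 0 then x.1.2.2.2 else decide (k = 1)) PT.snd ?_ ?_).congr
      (fun x => by rcases x with ⟨a, y | k⟩ <;> rfl)
    · exact pt_adjCR (hf.comp PT.fst.fst'.fst') PT.fst.fst'.snd' PT.snd
    · exact PT.ite (c := fun y : ((α × ((ℕ × ℕ) × (List Bool × Bool))) ×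
          ((((List Bool × ℕ) ⊕ ℕ) × Bool) ⊕ ℕ)) × ℕ => y.2 = 0) (e0 PT.snd 0)
        PT.fst.fst'.snd'.snd'.snd' (e0 PT.snd 1)
  · refine (PT.sumCases (f := fun x : α × ((((List Bool × ℕ) ⊕ ℕ) × Bool) ⊕ ℕ) => x.2)
      (g := fun x y => (match h x.1 with
        | .inl _ => false
        | .inr z' => match z' with
          | .inl _ => true
          | .inr k => if k = 0 then false else y.2))
      (h := fun x k => (match h x.1 with
        | .inl _ => false
        | .inr z' => match z' with
          | .inl _ => false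
          | .inr k' => decide (k = 0) && decide (k' = 1))) PT.snd ?_ ?_).congr (fun x => by
            rcases x with ⟨a, y | k⟩ <;> rcases h a with x' | y' | k' <;> rfl)
    · refine (PT.sumCases (f := fun x : (α × ((((List Bool × ℕ) ⊕ ℕ) × Bool) ⊕ ℕ)) ×
          (((List Bool × ℕ) ⊕ ℕ) × Bool) => h x.1.1) (g := fun _ _ => false)
        (h := fun x z' => match z' with
          | .inl _ => true
          | .inr k => if k = 0 then false else x.2.2) (hh.comp PT.fst.fst') (PT.const _)
          ?_).congr (fun x => by rcases h x.1.1 with x' | y' | k' <;> rfl)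
      refine (PT.sumCases (f := fun x : ((α × ((((List Bool × ℕ) ⊕ ℕ) × Bool) ⊕ ℕ)) ×
          (((List Bool × ℕ) ⊕ ℕ) × Bool)) × ((((List Bool × ℕ) ⊕ ℕ) × Bool) ⊕ ℕ) => x.2)
        (g := fun _ _ => true) (h := fun x k => if k = 0 then false else x.1.2.2) PT.snd
        (PT.const _) ?_).congr (fun x => by rcases x with ⟨a, y | k⟩ <;> rfl)
      exact PT.ite (c := fun y : (((α × ((((List Bool × ℕ) ⊕ ℕ) × Bool) ⊕ ℕ)) ×
          (((List Bool × ℕ) ⊕ ℕ) × Bool)) × ((((List Bool × ℕ) ⊕ ℕ) × Bool) ⊕ ℕ)) × ℕ =>
          y.2 = 0) (e0 PT.snd 0) (PT.const _) PT.fst.fst'.snd'.snd'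
    · refine (PT.sumCases (f := fun x : (α × ((((List Bool × ℕ) ⊕ ℕ) × Bool) ⊕ ℕ)) × ℕ =>
          h x.1.1) (g := fun _ _ => false)
        (h := fun x z' => match z' with
          | .inl _ => false
          | .inr k' => decide (x.2 = 0) && decide (k' = 1)) (hh.comp PT.fst.fst') (PT.const _)
          ?_).congr (fun x => by rcases h x.1.1 with x' | y' | k' <;> rfl)
      refine (PT.sumCases (f := fun x : ((α × ((((List Bool × ℕ) ⊕ ℕ) × Bool) ⊕ ℕ)) × ℕ) ×
          ((((List Bool × ℕ) ⊕ ℕ) × Bool) ⊕ ℕ) => x.2)
        (g := fun _ _ => false) (h := fun x k' => decide (x.1.2 = 0) && decide (k' = 1)) PT.snd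
        (PT.const _) ?_).congr (fun x => by rcases x with ⟨a, y | k⟩ <;> rfl)
      exact PT.and (e0 PT.fst.fst'.snd' 0) (e0 PT.snd 1)
  · rcases g a with x | y | k <;> rcases h a with x' | y' | k' <;> rfl

theorem pt_signs_pair (t : ℕ) : PT (fun c : ℕ × ℕ =>
    (((signs t).flatMap (fun ε => [(ε, false), (ε, true)])).map (fun k => (c, k)) :
      List ((ℕ × ℕ) × (List Bool × Bool)))) :=
  PT.mapConst _ (f := fun (k : List Bool × Bool) (c : ℕ × ℕ) => (c, k))
    (fun _ _ => PT.id.pair (PT.const _))

theorem pt_names (t : ℕ) : PT (fun M : List (List Bool) =>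
    (names t M (List.range (M.headD []).length) : List Nb)) := by
  have hhd : PT (fun M : List (List Bool) => M.headD []) :=
    (PT.getD PT.id 0 []).congr (fun M => by cases M <;> rfl)
  have hcs : PT (fun M : List (List Bool) => List.range (M.headD []).length) :=
    PT.range (PT.length hhd)
  have hcol : PT (fun M : List (List Bool) => colNames t (List.range (M.headD []).length)) :=
    PT.flatMap (g := fun _ (c : ℕ × ℕ) =>
      ((signs t).flatMap (fun ε => [(ε, false), (ε, true)])).map (fun k => (c, k)))
      (PT.zipIdx hcs) ((pt_signs_pair t).comp PT.snd)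
  have hrow : PT (fun M : List (List Bool) => rowNames t M) := by
    refine PT.flatMap (g := fun _ (r : (List Bool × ℕ) ⊕ ℕ) => [(r, false), (r, true)])
      (PT.append (PT.map (g := fun _ (r : List Bool × ℕ) => (Sum.inl r : (List Bool × ℕ) ⊕ ℕ))
        (PT.zipIdx PT.id) (PT.inl PT.snd)) (PT.const _)) ?_
    exact PT.cons (PT.snd.pair (PT.const _)) (PT.cons (PT.snd.pair (PT.const _)) (PT.const []))
  refine PT.append (PT.map (g := fun _ (x : (ℕ × ℕ) × (List Bool × Bool)) => (Sum.inl x : Nb))
    hcol (PT.inl PT.snd)) (PT.append (PT.map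
      (g := fun _ (y : ((List Bool × ℕ) ⊕ ℕ) × Bool) => (Sum.inr (Sum.inl y) : Nb)) hrow
      (PT.inr (PT.inl PT.snd))) (PT.const _))

theorem pt_listCode {β : Type} [Enc β] {f : α → List β} {adj : α → β → β → Bool} (hf : PT f)
    (hadj : PT (fun x : α × (β × β) => adj x.1 x.2.1 x.2.2)) :
    PT (fun a => listCode (f a) (adj a)) := by
  have h : PT (fun a => ((f a).length, (f a).zipIdx.flatMap (fun p =>
      ((f a).zipIdx.filter (fun q => adj a p.1 q.1)).map (fun q => (p.2, q.2))))) := by
    refine (PT.length hf).pair (PT.flatMap (g := fun a (p : β × ℕ) =>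
      ((f a).zipIdx.filter (fun q => adj a p.1 q.1)).map (fun q => (p.2, q.2)))
      (PT.zipIdx hf) ?_)
    refine PT.map (f := fun x : α × (β × ℕ) => (f x.1).zipIdx.filter (fun q => adj x.1 x.2.1 q.1))
      (g := fun (x : α × (β × ℕ)) (q : β × ℕ) => (x.2.2, q.2)) ?_
      (PT.fst.snd'.snd'.pair PT.snd.snd')
    refine PT.filter (f := fun x : α × (β × ℕ) => (f x.1).zipIdx)
      (p := fun (x : α × (β × ℕ)) (q : β × ℕ) => adj x.1 x.2.1 q.1)
      ((PT.zipIdx hf).comp PT.fst) ?_
    exact hadj.comp (PT.fst.fst'.pair (PT.fst.snd'.fst'.pair PT.snd.fst'))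
  exact h.congr_enc (fun _ => rfl)

theorem pt_headD : PT (fun M : List (List Bool) => M.headD []) :=
  (PT.getD PT.id 0 []).congr (fun M => by cases M <;> rfl)

theorem pt_adj_head : PT (fun x : List (List Bool) × (Nb × Nb) =>
    adjN (x.1.headD []) entry x.2.1 x.2.2) :=
  pt_adjN (pt_headD.comp PT.fst) PT.snd.fst' PT.snd.snd'

theorem pt_ballCode (t : ℕ) : PT (fun M : List (List Bool) =>
    ballCode t (M.headD []) M (List.range (M.headD []).length) entry) := by
  have h1 : PT (fun M : List (List Bool) =>
    (names t M (List.range (M.headD []).length) : List Nb)) := pt_names t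
  have h3 : PT (fun M : List (List Bool) =>
      listCode (names t M (List.range (M.headD []).length) : List Nb)
        (adjN (M.headD []) entry)) :=
    pt_listCode (adj := fun M : List (List Bool) => adjN (M.headD []) entry) h1 pt_adj_head
  exact h3

theorem pt_graphOfMat (d : ℕ) : PT (graphOfMat d) :=
  PT.cond (c := fun M : List (List Bool) => M.isEmpty)
    (f := fun _ : List (List Bool) => ((0, []) : GraphCode)) (PT.isNil PT.id) (PT.const _)
    (pt_ballCode (d - 2))

end Pool.Agent.Lib.MP_065e13_lc
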