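import Mathlib

/-!
# Ball graphs, sign rank and order types
-/

namespace Pool.Agent.Lib.MP_065e13_lc

/-- `G` is a *ball graph in `ℝ^d`*: there are closed Euclidean balls with positive radii, one for
each vertex, such that distinct vertices are adjacent iff their balls intersect. -/
def IsBallGraph (d : ℕ) {V : Type} (G : SimpleGraph V) : Prop :=
  ∃ (c : V → EuclideanSpace ℝ (Fin d)) (r : V → ℝ), (∀ v, 0 < r v) ∧
    ∀ u v, u ≠ v →
      (G.Adj u v ↔ (Metric.closedBall (c u) (r u) ∩ Metric.closedBall (c v) (r v)).Nonempty)

/-- The sign matrix `M` (`true` is `+`, `false` is `-`) has *sign rank at most `k`*: some real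
matrix of rank at most `k` has all entries nonzero, of the signs prescribed by `M`. -/
def SignRankLE (k : ℕ) {ι κ : Type} [Fintype κ] (M : ι → κ → Bool) : Prop :=
  ∃ A : Matrix ι κ ℝ, A.rank ≤ k ∧
    ∀ i j, (M i j = true → 0 < A i j) ∧ (M i j = false → A i j < 0)

/-- Twice the signed area of the triangle `p q r`; its sign is the orientation of the triple. -/
def area (p q r : ℝ × ℝ) : ℝ :=
  (q.1 - p.1) * (r.2 - p.2) - (r.1 - p.1) * (q.2 - p.2)

/-- The abstract (simple) order type `χ` on `n` labelled points is realizable: there are points of
the plane such that, for all `i < j < k`, the triple `(p i, p j, p k)` is positively oriented if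
`χ i j k` is `true` and negatively oriented if it is `false`. Only the values of `χ` at increasing
triples matter. -/
def OrderTypeRealizable {n : ℕ} (χ : Fin n → Fin n → Fin n → Bool) : Prop :=
  ∃ p : Fin n → ℝ × ℝ, ∀ i j k, i < j → j < k →
    (χ i j k = true → 0 < area (p i) (p j) (p k)) ∧
      (χ i j k = false → area (p i) (p j) (p k) < 0)

/-- The orientation of the triple `(i, j, k)` for `i < j` and `k ≠ i, j`, read off from the
orientations of the increasing triples. -/
def orient {n : ℕ} (χ : Fin n → Fin n → Fin n → Bool) (i j k : Fin n) : Bool :=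
  if k < i then χ k i j else if k < j then !(χ i k j) else χ i j k

end Pool.Agent.Lib.MP_065e13_lc
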