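import Pool.Agent.Lib.MP_0f8b55_lc.Defs
import Pool.Agent.Lib.MP_065e13_lc.Defs

/-!
# The problem `BALL_d`

Ball graphs (`IsBallGraph`) are defined in `Pool.Agent.Lib.MP_065e13_lc.Defs`; decision problems,
polynomial time reductions, the existential theory of the reals and `∃ℝ`-completeness are defined
in `Pool.Agent.Lib.MP_0f8b55_lc.Defs`.
-/

namespace Pool.Agent.Lib.MP_065e13_lc

open Pool.Agent.Lib.MP_0f8b55_lc

/-- The problem `BALL_d`: is a given graph a ball graph in `ℝ^d`? -/
def BALL (d : ℕ) : Problem where
  Inst := GraphCode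
  Letter := Bool
  fin := inferInstance
  enc := codePair codeNat (codeList (codePair codeNat codeNat))
  inj := (selfDelimiting_nat.pair (selfDelimiting_nat.pair selfDelimiting_nat).list).injective
  Yes := fun I => IsBallGraph d I.graph

end Pool.Agent.Lib.MP_065e13_lc
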