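import Pool.Agent.Lib.MP_0f8b55_lc.Member
import Pool.Agent.Lib.MP_065e13_lc.Problem

/-!
# Membership of the problem `BALL_d` in `∃ℝ`
-/

namespace Pool.Agent.Lib.MP_065e13_lc

open Pool.Agent.Lib.PolyTime Pool.Agent.Lib.MP_0f8b55_lc

/-- A polynomial time reduction from the existential theory of the reals to `BALL_d`. -/
theorem reduces_of_pt {d : ℕ} {f : Fml → GraphCode} (hf : PT f)
    (h : ∀ φ : Fml, (∃ x : ℕ → ℝ, φ.Holds x) ↔ IsBallGraph d (f φ).graph) :
    Reduces ETR (BALL d) := by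
  refine ⟨f, ?_, h⟩
  have e1 : ETR.enc = (code : Fml → List Bool) := funext fml_code
  have e2 : (BALL d).enc = (code : GraphCode → List Bool) := funext graph_code
  rw [e1, e2]
  exact hf.computable

/-- A polynomial time reduction from `BALL_d` to the existential theory of the reals. -/
theorem inER_of_pt {d : ℕ} {f : GraphCode → Fml} (hf : PT f)
    (h : ∀ I : GraphCode, IsBallGraph d I.graph ↔ ∃ x : ℕ → ℝ, (f I).Holds x) :
    InER (BALL d) := by
  refine ⟨f, ?_, h⟩
  have e1 : ETR.enc = (code : Fml → List Bool) := funext fml_code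
  have e2 : (BALL d).enc = (code : GraphCode → List Bool) := funext graph_code
  rw [e1, e2]
  exact hf.computable

/-- The adjacency test. -/
def adjB (I : GraphCode) (u v : ℕ) : Bool :=
  I.2.any (fun e => (decide (e.1 = u) && decide (e.2 = v)) || (decide (e.1 = v) && decide (e.2 = u)))

theorem adjB_iff (I : GraphCode) (u v : ℕ) :
    adjB I u v = true ↔ (u, v) ∈ I.2 ∨ (v, u) ∈ I.2 := by
  simp only [adjB, List.any_eq_true, Bool.or_eq_true, Bool.and_eq_true, decide_eq_true_eq]
  constructor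
  · rintro ⟨⟨a, b⟩, hab, ⟨rfl, rfl⟩ | ⟨rfl, rfl⟩⟩
    · exact Or.inl hab
    · exact Or.inr hab
  · rintro (h | h)
    · exact ⟨_, h, Or.inl ⟨rfl, rfl⟩⟩
    · exact ⟨_, h, Or.inr ⟨rfl, rfl⟩⟩

/-- The squared sum of two radii. -/
def radTrm (m u v : ℕ) : Trm :=
  .mul (.add (.var (m + u)) (.var (m + v))) (.add (.var (m + u)) (.var (m + v)))

/-- The formula of a pair of vertices. -/
def pairFml (d : ℕ) (I : GraphCode) (u v : ℕ) : Fml :=
  if adjB I u v then .le (distTrm d u v) (radTrm (I.1 * d) u v)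
  else .lt (radTrm (I.1 * d) u v) (distTrm d u v)

/-- The formula expressing that the graph is a ball graph. -/
def memFml (d : ℕ) (I : GraphCode) : Fml :=
  conj ((List.range I.1).map (fun u => Fml.lt (.const 0) (.var (I.1 * d + u))) ++
    (List.range I.1).flatMap (fun u => (List.range u).map (fun v => pairFml d I u v)))

variable {α : Type} [Enc α]

theorem pt_flt {f g : α → Trm} (hf : PT f) (hg : PT g) : PT (fun a => Fml.lt (f a) (g a)) :=
  pt_fml_of (PT.append (PT.append (pt_trm_toks hf) (pt_trm_toks hg)) (PT.const _))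

theorem pt_fle {f g : α → Trm} (hf : PT f) (hg : PT g) : PT (fun a => Fml.le (f a) (g a)) :=
  pt_fml_of (PT.append (PT.append (pt_trm_toks hf) (pt_trm_toks hg)) (PT.const _))

theorem pt_radTrm {f g h : α → ℕ} (hf : PT f) (hg : PT g) (hh : PT h) :
    PT (fun a => radTrm (f a) (g a) (h a)) := by
  have h1 := pt_tadd (pt_var (PT.add hf hg)) (pt_var (PT.add hf hh))
  exact pt_tmul h1 h1

theorem pt_adjB : PT (fun x : GraphCode × (ℕ × ℕ) => adjB x.1 x.2.1 x.2.2) := by
  refine PT.any (f := fun x : GraphCode × (ℕ × ℕ) => x.1.2)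
    (p := fun (x : GraphCode × (ℕ × ℕ)) (e : ℕ × ℕ) =>
      (decide (e.1 = x.2.1) && decide (e.2 = x.2.2)) ||
        (decide (e.1 = x.2.2) && decide (e.2 = x.2.1))) PT.fst.snd' ?_
  exact PT.or (PT.and (PT.eq PT.snd.fst' PT.fst.snd'.fst') (PT.eq PT.snd.snd' PT.fst.snd'.snd'))
    (PT.and (PT.eq PT.snd.fst' PT.fst.snd'.snd') (PT.eq PT.snd.snd' PT.fst.snd'.fst'))

theorem pt_pairFml (d : ℕ) :
    PT (fun x : GraphCode × (ℕ × ℕ) => pairFml d x.1 x.2.1 x.2.2) := by
  have hm : PT (fun x : GraphCode × (ℕ × ℕ) => x.1.1 * d) :=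
    ((PT.fst.fst').mulConst d).congr (fun a => by rw [mul_comm])
  have hd := pt_distTrm (α := GraphCode × (ℕ × ℕ)) d PT.snd.fst' PT.snd.snd'
  have hr := pt_radTrm hm (PT.snd.fst') (PT.snd.snd')
  refine (PT.cond (c := fun x : GraphCode × (ℕ × ℕ) => adjB x.1 x.2.1 x.2.2)
    (f := fun x => Fml.le (distTrm d x.2.1 x.2.2) (radTrm (x.1.1 * d) x.2.1 x.2.2))
    (g := fun x => Fml.lt (radTrm (x.1.1 * d) x.2.1 x.2.2) (distTrm d x.2.1 x.2.2))
    pt_adjB (pt_fle hd hr) (pt_flt hr hd)).congr (fun x => by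
      simp only [pairFml])

theorem pt_memFml (d : ℕ) : PT (memFml d) := by
  have h1 : PT (fun I : GraphCode => I.1) := PT.fst
  refine pt_conj (PT.append ?_ ?_)
  · refine PT.map (g := fun (I : GraphCode) (u : ℕ) => Fml.lt (.const 0) (.var (I.1 * d + u)))
      (PT.range h1) ?_
    have hm : PT (fun x : GraphCode × ℕ => x.1.1 * d) :=
      ((PT.fst.fst').mulConst d).congr (fun a => by rw [mul_comm])
    exact pt_flt (PT.const _) (pt_var (PT.add hm PT.snd))
  · refine PT.flatMap (g := fun (I : GraphCode) (u : ℕ) => (List.range u).map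
      (fun v => pairFml d I u v)) (PT.range h1) ?_
    refine PT.map (f := fun x : GraphCode × ℕ => List.range x.2)
      (g := fun (x : GraphCode × ℕ) (v : ℕ) => pairFml d x.1 x.2 v)
      (PT.range PT.snd) ?_
    exact (pt_pairFml d).comp ((PT.fst.fst').pair (PT.fst.snd'.pair PT.snd))

theorem inter_nonempty_iff {d : ℕ} (a b : EuclideanSpace ℝ (Fin d)) {r s : ℝ} (hr : 0 < r)
    (hs : 0 < s) : (Metric.closedBall a r ∩ Metric.closedBall b s).Nonempty ↔
      dist a b ^ 2 ≤ (r + s) * (r + s) := by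
  rw [← Set.not_disjoint_iff_nonempty_inter, disjoint_closedBall_closedBall_iff hr.le hs.le, not_lt]
  have h0 : (0 : ℝ) ≤ dist a b := dist_nonneg
  constructor
  · intro h; nlinarith
  · intro h
    by_contra hcon
    push Not at hcon
    nlinarith

theorem memFml_iff {d : ℕ} (I : GraphCode) :
    IsBallGraph d I.graph ↔ ∃ x : ℕ → ℝ, (memFml d I).Holds x := by
  -- the meaning of the formula
  have hform : ∀ x : ℕ → ℝ, (memFml d I).Holds x ↔
      (∀ u, u < I.1 → 0 < x (I.1 * d + u)) ∧
      (∀ u, u < I.1 → ∀ v, v < u → (adjB I u v = true ↔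
        ∑ j ∈ Finset.range d, (x (u * d + j) - x (v * d + j)) ^ 2 ≤
          (x (I.1 * d + u) + x (I.1 * d + v)) * (x (I.1 * d + u) + x (I.1 * d + v)))) := by
    intro x
    rw [memFml, conj_holds]
    simp only [List.mem_append, List.mem_map, List.mem_flatMap, List.mem_range]
    have hp : ∀ u v, (pairFml d I u v).Holds x ↔ (adjB I u v = true ↔
        ∑ j ∈ Finset.range d, (x (u * d + j) - x (v * d + j)) ^ 2 ≤
          (x (I.1 * d + u) + x (I.1 * d + v)) * (x (I.1 * d + u) + x (I.1 * d + v))) := by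
      intro u v
      unfold pairFml
      cases adjB I u v
      · simp [Fml.Holds, val_distTrm, radTrm, Trm.val]
      · simp [Fml.Holds, val_distTrm, radTrm, Trm.val]
    constructor
    · intro h
      refine ⟨fun u hu => ?_, fun u hu v hv => ?_⟩
      · have := h _ (Or.inl ⟨u, hu, rfl⟩)
        simpa [Fml.Holds, Trm.val] using this
      · exact (hp u v).1 (h _ (Or.inr ⟨u, hu, v, hv, rfl⟩))
    · rintro ⟨h1, h2⟩ φ (⟨u, hu, rfl⟩ | ⟨u, hu, v, hv, rfl⟩)
      · have := h1 u hu
        simpa [Fml.Holds, Trm.val] using this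
      · exact (hp u v).2 (h2 u hu v hv)
  constructor
  · rintro ⟨c, r, hr, hG⟩
    set x : ℕ → ℝ := fun i => if i < I.1 * d then
      (if h : i / d < I.1 then (if h' : i % d < d then c ⟨i / d, h⟩ ⟨i % d, h'⟩ else 0) else 0)
      else (if h : i - I.1 * d < I.1 then r ⟨i - I.1 * d, h⟩ else 0) with hx
    have hlt : ∀ u, u < I.1 → ∀ j : Fin d, u * d + j.1 < I.1 * d := by
      intro u hu j
      have : u + 1 ≤ I.1 := hu
      have h1 : (u + 1) * d ≤ I.1 * d := Nat.mul_le_mul_right d this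
      have := j.2
      rw [add_mul, one_mul] at h1
      omega
    have hxv : ∀ u (hu : u < I.1) (j : Fin d), x (u * d + j.1) = c ⟨u, hu⟩ j := by
      intro u hu j
      have hd : 0 < d := by have := j.2; omega
      have h1 : (u * d + j.1) / d = u := by
        rw [mul_comm, Nat.mul_add_div hd, Nat.div_eq_of_lt j.2, add_zero]
      have h2 : (u * d + j.1) % d = j.1 := by
        rw [mul_comm, Nat.mul_add_mod, Nat.mod_eq_of_lt j.2]
      simp only [hx, hlt u hu j, if_true, h1, h2, hu, dif_pos, j.2]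
    have hxr : ∀ u (hu : u < I.1), x (I.1 * d + u) = r ⟨u, hu⟩ := by
      intro u hu
      have h1 : ¬ (I.1 * d + u < I.1 * d) := by omega
      simp only [hx, h1, if_false, Nat.add_sub_cancel_left, hu, dif_pos]
    have hsum : ∀ u v (hu : u < I.1) (hv : v < I.1),
        ∑ j ∈ Finset.range d, (x (u * d + j) - x (v * d + j)) ^ 2 =
          dist (c ⟨u, hu⟩) (c ⟨v, hv⟩) ^ 2 := by
      intro u v hu hv
      rw [Finset.sum_range, EuclideanSpace.dist_eq, Real.sq_sqrt (by positivity)]
      refine Finset.sum_congr rfl (fun j _ => ?_)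
      rw [hxv u hu, hxv v hv, Real.dist_eq, sq_abs]
    refine ⟨x, (hform x).mpr ⟨fun u hu => ?_, fun u hu v hv => ?_⟩⟩
    · rw [hxr u hu]
      exact hr _
    · have hv' : v < I.1 := by omega
      rw [hsum u v hu hv', hxr u hu, hxr v hv', ← inter_nonempty_iff _ _ (hr _) (hr _), ← hG _ _ ?_,
        adjB_iff, GraphCode.graph, SimpleGraph.fromRel_adj]
      · simp only [ne_eq, Fin.mk.injEq]
        constructor
        · intro h
          exact ⟨by omega, h⟩
        · exact fun h => h.2
      · simp only [ne_eq, Fin.mk.injEq]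
        omega
  · rintro ⟨x, hx⟩
    obtain ⟨h1, h2⟩ := (hform x).mp hx
    set p : Fin I.1 → EuclideanSpace ℝ (Fin d) := fun u =>
      WithLp.toLp 2 (fun j : Fin d => x (u.1 * d + j.1)) with hp
    have hsum : ∀ u v : Fin I.1, dist (p u) (p v) ^ 2 =
        ∑ j ∈ Finset.range d, (x (u.1 * d + j) - x (v.1 * d + j)) ^ 2 := by
      intro u v
      rw [Finset.sum_range, EuclideanSpace.dist_eq, Real.sq_sqrt (by positivity)]
      refine Finset.sum_congr rfl (fun j _ => ?_)
      rw [Real.dist_eq, sq_abs]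
    have key : ∀ u v : Fin I.1, v.1 < u.1 → (I.graph.Adj u v ↔
        (Metric.closedBall (p u) (x (I.1 * d + u)) ∩
          Metric.closedBall (p v) (x (I.1 * d + v))).Nonempty) := by
      intro u v huv
      rw [inter_nonempty_iff _ _ (h1 _ u.2) (h1 _ v.2), hsum, ← h2 u.1 u.2 v.1 huv,
        adjB_iff, GraphCode.graph, SimpleGraph.fromRel_adj]
      constructor
      · exact fun h => h.2
      · intro h
        exact ⟨fun h' => by rw [h'] at huv; omega, h⟩
    refine ⟨p, fun u => x (I.1 * d + u), fun u => h1 _ u.2, fun u v huv => ?_⟩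
    rcases lt_trichotomy u.1 v.1 with h | h | h
    · rw [Set.inter_comm, SimpleGraph.adj_comm]
      exact key v u h
    · exact absurd (Fin.ext h) huv
    · exact key u v h

/-- `BALL_d` is in `∃ℝ`. -/
theorem inER_BALL (d : ℕ) : InER (BALL d) :=
  inER_of_pt (pt_memFml d) (fun I => memFml_iff I)

end Pool.Agent.Lib.MP_065e13_lc
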