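import Pool.Agent.Lib.MP_065e13_lc.Sufficiency

/-!
# From a matrix of small rank to a ball realization
-/

namespace Pool.Agent.Lib.MP_065e13_lc

open Module

/-- A real matrix of rank at most `k` is a matrix of inner products of vectors of `ℝ^k`. -/
lemma exists_factor {ι κ : Type} [Finite ι] [Fintype κ] {k : ℕ} (A : Matrix ι κ ℝ)
    (hA : A.rank ≤ k) : ∃ (α : ι → EuclideanSpace ℝ (Fin k)) (q : κ → EuclideanSpace ℝ (Fin k)),
      ∀ i j, A i j = inner ℝ (α i) (q j) := by
  classical
  have := Fintype.ofFinite ι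
  let W : Submodule ℝ (ι → ℝ) := Submodule.span ℝ (Set.range A.col)
  have hW : finrank ℝ W ≤ k := by
    rw [← Matrix.rank_eq_finrank_span_cols]
    exact hA
  have hrank : Module.rank ℝ W ≤ Module.rank ℝ (Fin k → ℝ) := by
    rw [← finrank_eq_rank, rank_fun', Fintype.card_fin]
    exact_mod_cast hW
  obtain ⟨f, hf⟩ := rank_le_iff_exists_linearMap.1 hrank
  obtain ⟨g, hg⟩ := f.exists_leftInverse_of_injective (LinearMap.ker_eq_bot.2 hf)
  have hcol : ∀ j, A.col j ∈ W := fun j => Submodule.subset_span ⟨j, rfl⟩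
  refine ⟨fun i => WithLp.toLp 2 fun l => (g (Pi.single l 1) : ι → ℝ) i,
    fun j => WithLp.toLp 2 (f ⟨A.col j, hcol j⟩), fun i j => ?_⟩
  have h1 : g (f ⟨A.col j, hcol j⟩) = ⟨A.col j, hcol j⟩ := by
    have := LinearMap.congr_fun hg ⟨A.col j, hcol j⟩
    simpa using this
  have h2 : f ⟨A.col j, hcol j⟩ =
      ∑ l, (f ⟨A.col j, hcol j⟩ l) • Pi.single l (1 : ℝ) := by
    ext l
    simp [Finset.sum_apply, Pi.single_apply]
  have h3 : A i j = (g (f ⟨A.col j, hcol j⟩) : ι → ℝ) i := by
    rw [h1]
    rfl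
  rw [h3, h2, map_sum]
  simp only [PiLp.inner_apply, RCLike.inner_apply, RCLike.conj_to_real]
  rw [AddSubmonoidClass.coe_finsetSum, Finset.sum_apply]
  refine Finset.sum_congr rfl fun l _ => ?_
  rw [map_smul]
  rfl

/-- The vector of `ℝ^(k+t)` with the given two blocks of coordinates. -/
noncomputable def blk {k t : ℕ} (x : EuclideanSpace ℝ (Fin k)) (y : EuclideanSpace ℝ (Fin t)) :
    EuclideanSpace ℝ (Fin (k + t)) := WithLp.toLp 2 (Fin.append x y)

lemma inner_blk {k t : ℕ} (x x' : EuclideanSpace ℝ (Fin k)) (y y' : EuclideanSpace ℝ (Fin t)) :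
    inner ℝ (blk x y) (blk x' y') = inner ℝ x x' + inner ℝ y y' := by
  simp only [blk, PiLp.inner_apply, Fin.sum_univ_add, Fin.append_left, Fin.append_right]

/-- In dimension at least two there is a unit vector orthogonal to a given vector. -/
lemma exists_unit_orthogonal {d : ℕ} (hd : 2 ≤ d) (e : EuclideanSpace ℝ (Fin d)) :
    ∃ f : EuclideanSpace ℝ (Fin d), ‖f‖ = 1 ∧ inner ℝ e f = 0 := by
  have hne : (ℝ ∙ e)ᗮ ≠ ⊥ := by
    intro h
    rw [Submodule.orthogonal_eq_bot_iff] at h
    have h1 : finrank ℝ (ℝ ∙ e) ≤ 1 := by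
      have := finrank_span_le_card (R := ℝ) ({e} : Set (EuclideanSpace ℝ (Fin d)))
      simpa using this
    rw [h, finrank_top, finrank_euclideanSpace, Fintype.card_fin] at h1
    omega
  obtain ⟨g, hg, hg0⟩ := Submodule.exists_mem_ne_zero_of_ne_bot hne
  rw [Submodule.mem_orthogonal_singleton_iff_inner_right] at hg
  refine ⟨(‖g‖⁻¹ : ℝ) • g, ?_, ?_⟩
  · rw [norm_smul, norm_inv, norm_norm, inv_mul_cancel₀ (norm_ne_zero_iff.2 hg0)]
  · rw [inner_smul_right, hg, mul_zero]

lemma inner_proj {k : ℕ} {e₀ : EuclideanSpace ℝ (Fin k)} (he₀ : inner ℝ e₀ e₀ = 1)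
    (a b : EuclideanSpace ℝ (Fin k)) :
    inner ℝ (a - (inner ℝ e₀ a : ℝ) • e₀) (b - (inner ℝ e₀ b : ℝ) • e₀) =
      inner ℝ a b - inner ℝ e₀ a * inner ℝ e₀ b := by
  simp only [inner_sub_left, inner_sub_right, inner_smul_left, inner_smul_right, he₀,
    RCLike.conj_to_real, real_inner_comm a e₀]
  ring

/-- The sign of a Boolean. -/
def sg (b : Bool) : ℝ := if b then 1 else -1

/-- **Sufficiency.** If the matrix has sign rank at most `k` then the gadget graph of the padded
matrix is a ball graph in `ℝ^(k+t)`. -/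
theorem isBallGraph_of_signRankLE {ι κ : Type} [Finite ι] [Fintype κ] {k t : ℕ}
    (h2 : 2 ≤ k + t) (i₀ : ι)
    (M : ι → κ → Bool) (h : SignRankLE k M) :
    IsBallGraph (k + t) (gadget (pad (t + 1) i₀ M)) := by
  classical
  rcases isEmpty_or_nonempty κ with hn | ⟨⟨j₀⟩⟩
  · have he : ‖(EuclideanSpace.single (⟨0, by omega⟩ : Fin (k + t)) (1 : ℝ))‖ = 1 := by simp
    obtain ⟨f, hf, hef⟩ := exists_unit_orthogonal h2
      (EuclideanSpace.single (⟨0, by omega⟩ : Fin (k + t)) (1 : ℝ))
    exact isBallGraph_of_data _ _ f he hf hef (fun _ => 0) (fun _ => 0) (fun _ => 0) (fun _ => 0)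
      (by simp) (by simp) (fun _ j => hn.elim j.1) (fun _ j => hn.elim j.1)
  obtain ⟨A, hA, hM⟩ := h
  obtain ⟨α, q, hq⟩ := exists_factor A hA
  have hA0 : ∀ j, A i₀ j ≠ 0 := by
    intro j
    cases h0 : M i₀ j
    · exact ((hM i₀ j).2 h0).ne
    · exact ((hM i₀ j).1 h0).ne'
  have hα0 : α i₀ ≠ 0 := by
    intro h0
    apply hA0 j₀
    rw [hq, h0, inner_zero_left]
  have hα0n : 0 < ‖α i₀‖ := norm_pos_iff.2 hα0
  -- the normal direction
  let e₀ : EuclideanSpace ℝ (Fin k) := (‖α i₀‖⁻¹ : ℝ) • α i₀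
  have he₀ : ‖e₀‖ = 1 := by
    simp only [e₀]
    rw [norm_smul, norm_inv, norm_norm, inv_mul_cancel₀ hα0n.ne']
  have he₀' : inner ℝ e₀ e₀ = 1 := by
    rw [real_inner_self_eq_norm_sq, he₀]
    norm_num
  -- normalised column vectors
  let p : κ → EuclideanSpace ℝ (Fin k) := fun j => ((A i₀ j)⁻¹ : ℝ) • q j
  have hp0 : ∀ j, inner ℝ e₀ (p j) = ‖α i₀‖⁻¹ := by
    intro j
    simp only [e₀, p]
    rw [inner_smul_left, inner_smul_right, ← hq, inv_mul_cancel₀ (hA0 j)]
    simp
  have hpi : ∀ i j, inner ℝ (α i) (p j) = A i j / A i₀ j := by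
    intro i j
    simp only [p]
    rw [inner_smul_right, ← hq]
    field_simp
  have hratio₁ : ∀ i j, (M i j == M i₀ j) = true → 0 < A i j / A i₀ j := by
    intro i j hij
    have h1 := hM i j
    have h2 := hM i₀ j
    cases h3 : M i j <;> cases h4 : M i₀ j <;> simp [h3, h4] at hij h1 h2
    · exact div_pos_of_neg_of_neg h1 h2
    · exact div_pos h1 h2
  have hratio₂ : ∀ i j, (M i j == M i₀ j) = false → A i j / A i₀ j < 0 := by
    intro i j hij
    have h1 := hM i j
    have h2 := hM i₀ j
    cases h3 : M i j <;> cases h4 : M i₀ j <;> simp [h3, h4] at hij h1 h2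
    · exact div_neg_of_neg_of_pos h1 h2
    · exact div_neg_of_pos_of_neg h1 h2
  -- a small number
  obtain ⟨η, hη0, hη⟩ : ∃ η : ℝ, 0 < η ∧ ∀ i j, η < |A i j / A i₀ j| := by
    have key : ∀ᶠ η in nhdsWithin (0 : ℝ) (Set.Ioi 0), ∀ i j, η < |A i j / A i₀ j| := by
      rw [Filter.eventually_all]
      intro i
      rw [Filter.eventually_all]
      intro j
      have hpos : 0 < |A i j / A i₀ j| := by
        rw [abs_pos]
        cases hij : (M i j == M i₀ j)
        · exact (hratio₂ i j hij).ne
        · exact (hratio₁ i j hij).ne'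
      exact nhdsWithin_le_nhds (eventually_lt_nhds hpos)
    obtain ⟨η, hη, hη0⟩ := (key.and self_mem_nhdsWithin).exists
    exact ⟨η, hη0, hη⟩
  -- the data
  let e : EuclideanSpace ℝ (Fin (k + t)) := blk e₀ 0
  have he : ‖e‖ = 1 := by
    have h1 : ‖e‖ ^ 2 = 1 := by
      rw [← real_inner_self_eq_norm_sq]
      simp only [e]
      rw [inner_blk, he₀']
      simp
    have h2 := norm_nonneg e
    nlinarith
  obtain ⟨f, hf, hef⟩ := exists_unit_orthogonal h2 e
  have hproj : ∀ x : EuclideanSpace ℝ (Fin k), inner ℝ e₀ (x - (inner ℝ e₀ x : ℝ) • e₀) = 0 := by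
    intro x
    rw [inner_sub_right, inner_smul_right, he₀']
    ring
  let X : κ × (Fin (t + 1) → Bool) → EuclideanSpace ℝ (Fin (k + t)) := fun j =>
    blk (p j.1 - (inner ℝ e₀ (p j.1) : ℝ) • e₀) (WithLp.toLp 2 fun s => η * sg (j.2 s.succ))
  let mm : ι ⊕ Fin (t + 1) → EuclideanSpace ℝ (Fin (k + t)) := fun i =>
    match i with
    | .inl i => blk (α i - (inner ℝ e₀ (α i) : ℝ) • e₀) 0
    | .inr s => Fin.cases 0 (fun s => blk 0 (EuclideanSpace.single s 1)) s
  let v : κ × (Fin (t + 1) → Bool) → ℝ := fun j => η / 2 * sg (j.2 0)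
  let s : ι ⊕ Fin (t + 1) → ℝ := fun i =>
    match i with
    | .inl i => -(inner ℝ e₀ (α i) * ‖α i₀‖⁻¹)
    | .inr _ => 0
  have hvabs : ∀ j, |v j| = η / 2 := by
    intro j
    simp only [v, sg]
    split_ifs
    · rw [mul_one, abs_of_pos (by positivity)]
    · rw [mul_neg, mul_one, abs_neg, abs_of_pos (by positivity)]
  have hval_l : ∀ i j, v j - s (.inl i) + inner ℝ (mm (.inl i)) (X j) =
      v j + A i j.1 / A i₀ j.1 := by
    intro i j
    simp only [s, mm, X]
    rw [inner_blk, inner_zero_left, add_zero, inner_proj he₀', hp0, hpi]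
    ring
  have hval_0 : ∀ j, v j - s (.inr 0) + inner ℝ (mm (.inr 0)) (X j) = v j := by
    intro j
    simp [s, mm]
  have hval_s : ∀ (r : Fin t) j, v j - s (.inr r.succ) + inner ℝ (mm (.inr r.succ)) (X j) =
      v j + η * sg (j.2 r.succ) := by
    intro r j
    simp only [s, mm, X, Fin.cases_succ]
    rw [inner_blk, inner_zero_left, EuclideanSpace.inner_single_left]
    simp
  refine isBallGraph_of_data _ e f he hf hef X mm v s ?_ ?_ ?_ ?_
  · intro j
    simp only [e, X]
    rw [inner_blk, hproj, inner_zero_left, add_zero]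
  · intro i
    match i with
    | .inl i =>
      simp only [e, mm]
      rw [inner_blk, hproj, inner_zero_left, add_zero]
    | .inr s =>
      induction s using Fin.cases with
      | zero => simp [mm]
      | succ s =>
        simp only [e, mm, Fin.cases_succ]
        rw [inner_blk, inner_zero_left, inner_zero_right, add_zero]
  · intro i j hij
    match i with
    | .inl i =>
      rw [hval_l]
      have h1 := hratio₁ i j.1 (by simpa [pad] using hij)
      have h2 := hη i j.1
      rw [abs_of_pos h1] at h2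
      have h3 := neg_abs_le (v j)
      rw [hvabs] at h3
      linarith
    | .inr s =>
      induction s using Fin.cases with
      | zero =>
        rw [hval_0]
        have : j.2 0 = true := by simpa [pad] using hij
        simp only [v, this, sg]
        simp [hη0]
      | succ s =>
        rw [hval_s]
        have : j.2 s.succ = true := by simpa [pad] using hij
        rw [this]
        have h3 := neg_abs_le (v j)
        rw [hvabs] at h3
        simp only [sg, if_true, mul_one]
        linarith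
  · intro i j hij
    match i with
    | .inl i =>
      rw [hval_l]
      have h1 := hratio₂ i j.1 (by simpa [pad] using hij)
      have h2 := hη i j.1
      rw [abs_of_neg h1] at h2
      have h3 := le_abs_self (v j)
      rw [hvabs] at h3
      linarith
    | .inr s =>
      induction s using Fin.cases with
      | zero =>
        rw [hval_0]
        have : j.2 0 = false := by simpa [pad] using hij
        simp only [v, this, sg]
        simp [hη0]
      | succ s =>
        rw [hval_s]
        have : j.2 s.succ = false := by simpa [pad] using hij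
        rw [this]
        have h3 := le_abs_self (v j)
        rw [hvabs] at h3
        simp only [sg]
        simp
        linarith

end Pool.Agent.Lib.MP_065e13_lc
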