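import Pool.Agent.Lib.MP_065e13_lc.Defs

/-!
# The gadget graph of a sign matrix
-/

namespace Pool.Agent.Lib.MP_065e13_lc

/-- The vertices of the gadget graph attached to a sign matrix with rows `I` and columns `J`:
two vertices for each row, two vertices for each column, and three further vertices. -/
inductive Vtx (I J : Type) : Type
  | col (j : J) (big : Bool)
  | row (i : I) (big : Bool)
  | z
  | x₁
  | x₂
  deriving DecidableEq, Fintype

/-- The adjacency of two distinct vertices of the gadget graph, listed up to symmetry. -/
def adjHalf {I J : Type} (N : I → J → Bool) : Vtx I J → Vtx I J → Prop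
  | .col _ _, .col _ _ => True
  | .row _ _, .row _ _ => True
  | .col j _, .row i _ => N i j = true
  | .col _ b, .z => b = true
  | .col _ _, .x₁ => True
  | .row _ b, .x₁ => b = true
  | .row _ b, .x₂ => b = true
  | .z, .x₁ => True
  | _, _ => False

/-- The gadget graph of the sign matrix `N`. -/
def gadget {I J : Type} (N : I → J → Bool) : SimpleGraph (Vtx I J) where
  Adj u v := u ≠ v ∧ (adjHalf N u v ∨ adjHalf N v u)
  symm := ⟨fun _ _ h => ⟨h.1.symm, h.2.symm⟩⟩
  loopless := ⟨fun _ h => h.1 rfl⟩

/-- The matrix obtained from `M` by flipping the signs of the columns so that row `i₀` becomes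
positive, then replacing each column by `2 ^ t` copies, labelled by the sign vectors of length
`t`, and adding `t` rows, the `s`-th of which shows the `s`-th sign of the label. -/
def pad {ι κ : Type} (t : ℕ) (i₀ : ι) (M : ι → κ → Bool) :
    ι ⊕ Fin t → κ × (Fin t → Bool) → Bool
  | .inl i, (j, _) => (M i j == M i₀ j)
  | .inr s, (_, ε) => ε s

end Pool.Agent.Lib.MP_065e13_lc
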