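import Pool.Agent.Lib.MP_065e13_lc.Gadget

/-!
# From a ball realization of the gadget graph to a matrix of small rank
-/

namespace Pool.Agent.Lib.MP_065e13_lc

open Module

/-! ### Linear algebra -/

section LinearAlgebra

variable {V : Type*} [AddCommGroup V] [Module ℝ V]

/-- If a family of functionals realises every sign pattern then it is linearly independent. -/
lemma indep_of_patterns {S : Type*} [Fintype S] (ψ : S → V →ₗ[ℝ] ℝ) (P : (S → Bool) → V)
    (h₁ : ∀ ε s, ε s = true → ψ s (P ε) < 0) (h₂ : ∀ ε s, ε s = false → 0 < ψ s (P ε))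
    (c : S → ℝ) (hc : ∀ v, ∑ s, c s * ψ s v = 0) : c = 0 := by
  classical
  by_contra hne
  obtain ⟨s₀, hs₀⟩ : ∃ s, c s ≠ 0 := by
    by_contra h
    push Not at h
    exact hne (funext h)
  let ε : S → Bool := fun s => decide (c s < 0)
  have h := hc (P ε)
  have hnn : ∀ s ∈ Finset.univ, 0 ≤ c s * ψ s (P ε) := by
    intro s _
    by_cases hs : c s < 0
    · have := h₁ ε s (by simp [ε, hs])
      nlinarith
    · have := h₂ ε s (by simp [ε, hs])
      push Not at hs
      positivity
  have hz := (Finset.sum_eq_zero_iff_of_nonneg hnn).1 h s₀ (Finset.mem_univ _)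
  rcases mul_eq_zero.1 hz with h0 | h0
  · exact hs₀ h0
  · by_cases hs : c s₀ < 0
    · have := h₁ ε s₀ (by simp [ε, hs])
      linarith
    · have := h₂ ε s₀ (by simp [ε, hs])
      linarith

/-- If a family of functionals realises every sign pattern then some convex combination of the
vectors lies in the common kernel. -/
lemma exists_comb {S : Type*} [Fintype S] [DecidableEq S] (ψ : S → V →ₗ[ℝ] ℝ) (P : (S → Bool) → V)
    (h₁ : ∀ ε s, ε s = true → ψ s (P ε) < 0) (h₂ : ∀ ε s, ε s = false → 0 < ψ s (P ε)) :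
    ∃ w : (S → Bool) → ℝ, (∀ ε, 0 ≤ w ε) ∧ (∑ ε, w ε = 1) ∧
      ∀ s, ψ s (∑ ε, w ε • P ε) = 0 := by
  let y : (S → Bool) → (S → ℝ) := fun ε s => ψ s (P ε)
  by_cases h0 : (0 : S → ℝ) ∈ convexHull ℝ (Set.range y)
  · rw [convexHull_range_eq_exists_affineCombination] at h0
    obtain ⟨s, w, hw0, hw1, hw2⟩ := h0
    refine ⟨fun ε => if ε ∈ s then w ε else 0, ?_, ?_, ?_⟩
    · intro ε
      by_cases hε : ε ∈ s
      · simpa [hε] using hw0 ε hε
      · simp [hε]
    · rw [Finset.sum_ite_mem, Finset.univ_inter, hw1]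
    · intro t
      rw [s.affineCombination_eq_linear_combination _ _ hw1] at hw2
      have := congrFun hw2 t
      simp only [Finset.sum_apply, Pi.smul_apply, smul_eq_mul, Pi.zero_apply, y] at this
      rw [map_sum]
      simp only [map_smul, smul_eq_mul, ite_mul, zero_mul]
      rw [Finset.sum_ite_mem, Finset.univ_inter]
      exact this
  · exfalso
    obtain ⟨f, u, hf0, hf⟩ := geometric_hahn_banach_point_closed (convex_convexHull ℝ (Set.range y))
      ((Set.finite_range y).isClosed_convexHull ℝ) h0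
    simp only [map_zero] at hf0
    let c : S → ℝ := fun s => f (Pi.single s 1)
    have hfc : ∀ x : S → ℝ, f x = ∑ s, c s * x s := by
      intro x
      have : x = ∑ s, x s • Pi.single s (1 : ℝ) := by
        ext t
        simp [Finset.sum_apply, Pi.single_apply]
      conv_lhs => rw [this]
      rw [map_sum]
      refine Finset.sum_congr rfl fun s _ => ?_
      rw [map_smul, smul_eq_mul, mul_comm]
    let ε : S → Bool := fun s => decide (0 < c s)
    have hfy := hf (y ε) (subset_convexHull ℝ _ ⟨ε, rfl⟩)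
    rw [hfc] at hfy
    have hneg : ∑ s, c s * y ε s ≤ 0 := by
      refine Finset.sum_nonpos fun s _ => ?_
      by_cases hs : 0 < c s
      · have := h₁ ε s (by simp [ε, hs])
        simp only [y]
        nlinarith
      · have := h₂ ε s (by simp [ε, hs])
        push Not at hs
        simp only [y]
        nlinarith
    linarith

/-- The rank bound: pairing vectors of the common kernel of a linearly independent family `ψ` with
functionals which kill a nonzero vector `x` of this kernel. -/
lemma rank_bound [FiniteDimensional ℝ V] {S ι κ : Type*} [Fintype S] [Finite ι] [Fintype κ]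
    (ψ : S → V →ₗ[ℝ] ℝ) (φ : ι → V →ₗ[ℝ] ℝ) (Q : κ → V) (x : V) (hx : x ≠ 0)
    (hψx : ∀ s, ψ s x = 0) (hφx : ∀ i, φ i x = 0) (hQ : ∀ s j, ψ s (Q j) = 0)
    (hind : ∀ c : S → ℝ, (∀ v, ∑ s, c s * ψ s v = 0) → c = 0) :
    (Matrix.of fun i j => φ i (Q j)).rank + Fintype.card S + 1 ≤ finrank ℝ V := by
  classical
  have := Fintype.ofFinite ι
  let Ψ : V →ₗ[ℝ] (S → ℝ) := LinearMap.pi ψ
  let F : V →ₗ[ℝ] (ι → ℝ) := LinearMap.pi φ
  have hsurj : LinearMap.range Ψ = ⊤ := by
    by_contra hne
    obtain ⟨f, hf0, hf⟩ := Submodule.exists_le_ker_of_lt_top _ (lt_top_iff_ne_top.2 hne)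
    apply hf0
    have hfc : ∀ x : S → ℝ, f x = ∑ s, f (Pi.single s 1) * x s := by
      intro x
      have : x = ∑ s, x s • Pi.single s (1 : ℝ) := by
        ext t
        simp [Finset.sum_apply, Pi.single_apply]
      conv_lhs => rw [this]
      rw [map_sum]
      refine Finset.sum_congr rfl fun s _ => ?_
      rw [map_smul, smul_eq_mul, mul_comm]
    have hc := hind (fun s => f (Pi.single s 1)) (by
      intro v
      have h1 : Ψ v ∈ LinearMap.ker f := hf ⟨v, rfl⟩
      rw [LinearMap.mem_ker, hfc] at h1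
      simpa [Ψ] using h1)
    ext s
    simpa using congrFun hc s
  have hW := Ψ.finrank_range_add_finrank_ker
  rw [hsurj, finrank_top, Module.finrank_fintype_fun_eq_card] at hW
  obtain ⟨W, hWdef⟩ : ∃ W, W = LinearMap.ker Ψ := ⟨_, rfl⟩
  rw [← hWdef] at hW
  have hxW : x ∈ W := by
    rw [hWdef, LinearMap.mem_ker]
    ext s
    simp [Ψ, hψx s]
  have hQW : ∀ j, Q j ∈ W := by
    intro j
    rw [hWdef, LinearMap.mem_ker]
    ext s
    simp [Ψ, hQ s j]
  have hF := (F.domRestrict W).finrank_range_add_finrank_ker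
  have hker : 1 ≤ finrank ℝ (LinearMap.ker (F.domRestrict W)) := by
    have hx' : (⟨x, hxW⟩ : W) ∈ LinearMap.ker (F.domRestrict W) := by
      rw [LinearMap.mem_ker]
      ext i
      simp [F, hφx i]
    have : (LinearMap.ker (F.domRestrict W)) ≠ ⊥ := by
      intro hbot
      rw [hbot, Submodule.mem_bot] at hx'
      exact hx (by simpa using congrArg Subtype.val hx')
    exact Submodule.one_le_finrank_iff.2 this
  have hrank : (Matrix.of fun i j => φ i (Q j)).rank ≤
      finrank ℝ (LinearMap.range (F.domRestrict W)) := by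
    rw [Matrix.rank_eq_finrank_span_cols]
    apply Submodule.finrank_mono
    rw [Submodule.span_le]
    rintro _ ⟨j, rfl⟩
    refine ⟨⟨Q j, hQW j⟩, ?_⟩
    ext i
    simp [F, Matrix.col_apply]
  omega

end LinearAlgebra

/-! ### Lie coordinates of balls -/

section Lie

variable {d : ℕ}

/-- The space of Lie coordinates. -/
abbrev LieV (d : ℕ) : Type := ℝ × EuclideanSpace ℝ (Fin d) × ℝ × ℝ

/-- The Lie form. -/
noncomputable def lam (d : ℕ) : LieV d →ₗ[ℝ] LieV d →ₗ[ℝ] ℝ :=
  LinearMap.mk₂ ℝ (fun p q => p.1 * q.2.2.2 + p.2.2.2 * q.1 - 2 * inner ℝ p.2.1 q.2.1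
      - 2 * (p.2.2.1 * q.2.2.1))
    (by intro p p' q; simp only [Prod.fst_add, Prod.snd_add, inner_add_left]; ring)
    (by intro a p q; simp only [Prod.smul_fst, Prod.smul_snd, inner_smul_left, smul_eq_mul,
          RCLike.conj_to_real]; ring)
    (by intro p q q'; simp only [Prod.fst_add, Prod.snd_add, inner_add_right]; ring)
    (by intro a p q; simp only [Prod.smul_fst, Prod.smul_snd, inner_smul_right, smul_eq_mul]; ring)

lemma lam_apply (p q : LieV d) : lam d p q = p.1 * q.2.2.2 + p.2.2.2 * q.1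
    - 2 * inner ℝ p.2.1 q.2.1 - 2 * (p.2.2.1 * q.2.2.1) := rfl

lemma lam_symm (p q : LieV d) : lam d p q = lam d q p := by
  rw [lam_apply, lam_apply, real_inner_comm]
  ring

/-- The Lie coordinates of a ball. -/
noncomputable def lift (c : EuclideanSpace ℝ (Fin d)) (r : ℝ) : LieV d :=
  (1, c, r, ‖c‖ ^ 2 - r ^ 2)

lemma lam_lift (c c' : EuclideanSpace ℝ (Fin d)) (r r' : ℝ) :
    lam d (lift c r) (lift c' r') = ‖c - c'‖ ^ 2 - (r + r') ^ 2 := by
  rw [lam_apply, norm_sub_sq_real]
  simp only [lift]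
  ring

lemma lam_neg {c c' : EuclideanSpace ℝ (Fin d)} {r r' : ℝ} (h : ‖c - c'‖ < r + r') :
    lam d (lift c r) (lift c' r') < 0 := by
  rw [lam_lift]
  have := norm_nonneg (c - c')
  nlinarith

lemma lam_pos {c c' : EuclideanSpace ℝ (Fin d)} {r r' : ℝ} (hr : 0 < r) (hr' : 0 < r')
    (h : r + r' < ‖c - c'‖) : 0 < lam d (lift c r) (lift c' r') := by
  rw [lam_lift]
  nlinarith

lemma finrank_LieV (d : ℕ) : finrank ℝ (LieV d) = d + 3 := by
  simp only [LieV, Module.finrank_prod, finrank_euclideanSpace, Fintype.card_fin,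
    Module.finrank_self]
  omega

end Lie

/-- A ball realization of a finite graph can be made strict. -/
lemma exists_strict {d : ℕ} {V : Type} [Finite V] {G : SimpleGraph V} (h : IsBallGraph d G) :
    ∃ (c : V → EuclideanSpace ℝ (Fin d)) (r : V → ℝ), (∀ v, 0 < r v) ∧
      (∀ u v, G.Adj u v → ‖c u - c v‖ < r u + r v) ∧
      (∀ u v, u ≠ v → ¬ G.Adj u v → r u + r v < ‖c u - c v‖) := by
  obtain ⟨c, r, hr, h⟩ := h
  have key : ∀ᶠ η in nhdsWithin (0 : ℝ) (Set.Ioi 0), ∀ u v, u ≠ v → ¬ G.Adj u v →
      (r u + η) + (r v + η) < ‖c u - c v‖ := by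
    rw [Filter.eventually_all]
    intro u
    rw [Filter.eventually_all]
    intro v
    by_cases huv : u ≠ v ∧ ¬ G.Adj u v
    · have h1 : r u + r v < ‖c u - c v‖ := by
        have := huv.2
        rw [h u v huv.1, ← Set.not_disjoint_iff_nonempty_inter, not_not,
          disjoint_closedBall_closedBall_iff (hr u).le (hr v).le, dist_eq_norm] at this
        exact this
      have h2 : Filter.Tendsto (fun η : ℝ => (r u + η) + (r v + η)) (nhdsWithin 0 (Set.Ioi 0))
          (nhds (r u + r v)) := by
        have : Filter.Tendsto (fun η : ℝ => (r u + η) + (r v + η)) (nhds 0)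
            (nhds ((r u + 0) + (r v + 0))) := by
          exact ((continuous_const.add continuous_id).add
            (continuous_const.add continuous_id)).tendsto 0
        simp only [add_zero] at this
        exact this.mono_left nhdsWithin_le_nhds
      filter_upwards [h2.eventually_lt_const h1] with η hη _ _
      exact hη
    · filter_upwards with η h1 h2
      exact absurd ⟨h1, h2⟩ huv
  obtain ⟨η, hη, hη0⟩ := (key.and self_mem_nhdsWithin).exists
  have hη0' : 0 < η := hη0
  refine ⟨c, fun v => r v + η, fun v => ?_, ?_, hη⟩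
  · have := hr v
    linarith
  · intro u v huv
    have hne := G.ne_of_adj huv
    rw [h u v hne] at huv
    have := Metric.dist_le_add_of_nonempty_closedBall_inter_closedBall huv
    rw [dist_eq_norm] at this
    change _ < (r u + η) + (r v + η)
    linarith

/-- **Necessity.** If the gadget graph of the padded matrix is a ball graph in `ℝ^d` then the
matrix has sign rank at most `k`, where `d + 1 = k + t`. -/
theorem signRankLE_of_isBallGraph {ι κ : Type} [Finite ι] [Fintype κ] {k t d : ℕ}
    (hd : d + 1 = k + t) (i₀ : ι)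
    (M : ι → κ → Bool) (h : IsBallGraph d (gadget (pad t i₀ M))) :
    SignRankLE k M := by
  classical
  rcases isEmpty_or_nonempty κ with hn | ⟨⟨j₀⟩⟩
  · refine ⟨0, ?_, fun i j => hn.elim j⟩
    simp
  have := Fintype.ofFinite ι
  obtain ⟨c, r, hr, hadj, hnadj⟩ := exists_strict h
  let L : Vtx (ι ⊕ Fin t) (κ × (Fin t → Bool)) → LieV d := fun v => lift (c v) (r v)
  have hneg : ∀ u v, (gadget (pad t i₀ M)).Adj u v → lam d (L u) (L v) < 0 :=
    fun u v huv => lam_neg (hadj u v huv)
  have hpos : ∀ u v, u ≠ v → ¬ (gadget (pad t i₀ M)).Adj u v → 0 < lam d (L u) (L v) :=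
    fun u v hne huv => lam_pos (hr u) (hr v) (hnadj u v hne huv)
  -- the pairings with `z`, `x₁`, `x₂`
  have hx₁z : lam d (L .x₁) (L .z) < 0 := hneg _ _ ⟨by simp, by simp [adjHalf]⟩
  have hx₂z : 0 < lam d (L .x₂) (L .z) := hpos _ _ (by simp) (by simp [gadget, adjHalf])
  let X : LieV d := lam d (L .x₂) (L .z) • L .x₁ - lam d (L .x₁) (L .z) • L .x₂
  have hXz : lam d X (L .z) = 0 := by
    simp only [X, map_sub, map_smul, LinearMap.sub_apply, LinearMap.smul_apply, smul_eq_mul]
    ring
  have hX0 : X ≠ 0 := by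
    intro h0
    have h1 : X.1 = 0 := by rw [h0]; rfl
    have h2 : X.1 = lam d (L .x₂) (L .z) - lam d (L .x₁) (L .z) := by
      simp [X, L, lift]
    linarith
  have hbigX : ∀ i, lam d (L (.row i true)) X < 0 := by
    intro i
    have h1 : lam d (L (.row i true)) (L .x₁) < 0 := hneg _ _ ⟨by simp, by simp [adjHalf]⟩
    have h2 : lam d (L (.row i true)) (L .x₂) < 0 := hneg _ _ ⟨by simp, by simp [adjHalf]⟩
    simp only [X, map_sub, map_smul, smul_eq_mul]
    nlinarith
  have hsmallX : ∀ i, 0 < lam d (L (.row i false)) X := by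
    intro i
    have h1 : 0 < lam d (L (.row i false)) (L .x₁) :=
      hpos _ _ (by simp) (by simp [gadget, adjHalf])
    have h2 : 0 < lam d (L (.row i false)) (L .x₂) :=
      hpos _ _ (by simp) (by simp [gadget, adjHalf])
    simp only [X, map_sub, map_smul, smul_eq_mul]
    nlinarith
  let A : ι ⊕ Fin t → LieV d := fun i =>
    lam d (L (.row i false)) X • L (.row i true) - lam d (L (.row i true)) X • L (.row i false)
  have hAX : ∀ i, lam d X (A i) = 0 := by
    intro i
    rw [lam_symm]
    simp only [A, map_sub, map_smul, LinearMap.sub_apply, LinearMap.smul_apply, smul_eq_mul]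
    ring
  let φ' : ι ⊕ Fin t → LieV d →ₗ[ℝ] ℝ := fun i => (lam d).flip (A i)
  have hφ' : ∀ i v, φ' i v = lam d v (A i) := fun i v => rfl
  have hφneg : ∀ i j b, pad t i₀ M i j = true → φ' i (L (.col j b)) < 0 := by
    intro i j b hij
    have h1 : lam d (L (.col j b)) (L (.row i true)) < 0 :=
      hneg _ _ ⟨by simp, by simp [adjHalf, hij]⟩
    have h2 : lam d (L (.col j b)) (L (.row i false)) < 0 :=
      hneg _ _ ⟨by simp, by simp [adjHalf, hij]⟩
    have h3 := hbigX i
    have h4 := hsmallX i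
    rw [hφ']
    simp only [A, map_sub, map_smul, smul_eq_mul]
    nlinarith
  have hφpos : ∀ i j b, pad t i₀ M i j = false → 0 < φ' i (L (.col j b)) := by
    intro i j b hij
    have h1 : 0 < lam d (L (.col j b)) (L (.row i true)) :=
      hpos _ _ (by simp) (by simp [gadget, adjHalf, hij])
    have h2 : 0 < lam d (L (.col j b)) (L (.row i false)) :=
      hpos _ _ (by simp) (by simp [gadget, adjHalf, hij])
    have h3 := hbigX i
    have h4 := hsmallX i
    rw [hφ']
    simp only [A, map_sub, map_smul, smul_eq_mul]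
    nlinarith
  let ψ : Option (Fin t) → LieV d →ₗ[ℝ] ℝ := fun o =>
    match o with
    | none => (lam d).flip (L .z)
    | some s => φ' (.inr s)
  let P : κ → (Option (Fin t) → Bool) → LieV d := fun j ε =>
    L (.col (j, fun s => ε (some s)) (ε none))
  have hP₁ : ∀ j ε s, ε s = true → ψ s (P j ε) < 0 := by
    intro j ε s hs
    match s, hs with
    | none, hs => exact hneg _ _ ⟨by simp, by simp [adjHalf, hs]⟩
    | some s, hs => exact hφneg _ _ _ (by simpa [pad] using hs)
  have hP₂ : ∀ j ε s, ε s = false → 0 < ψ s (P j ε) := by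
    intro j ε s hs
    match s, hs with
    | none, hs => exact hpos _ _ (by simp) (by simp [gadget, adjHalf, hs])
    | some s, hs => exact hφpos _ _ _ (by simpa [pad] using hs)
  have hcomb := fun j => exists_comb ψ (P j) (hP₁ j) (hP₂ j)
  choose w hw0 hw1 hw2 using hcomb
  let Q : κ → LieV d := fun j => ∑ ε, w j ε • P j ε
  let φ : ι → LieV d →ₗ[ℝ] ℝ := fun i => φ' (.inl i)
  have hφQ : ∀ i j, φ i (Q j) = ∑ ε, w j ε * φ i (P j ε) := by
    intro i j
    simp only [Q, map_sum, map_smul, smul_eq_mul]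
  have hexw : ∀ j, ∃ ε, 0 < w j ε := by
    intro j
    by_contra hcon
    push Not at hcon
    have : ∑ ε, w j ε ≤ 0 := Finset.sum_nonpos fun ε _ => hcon ε
    rw [hw1 j] at this
    linarith
  have hQneg : ∀ i j, (M i j == M i₀ j) = true → φ i (Q j) < 0 := by
    intro i j hij
    obtain ⟨ε, hε⟩ := hexw j
    rw [hφQ]
    have hterm : ∀ ε, φ i (P j ε) < 0 := fun ε => hφneg _ _ _ (by simpa [pad] using hij)
    refine Finset.sum_neg' (fun ε _ => ?_) ⟨ε, Finset.mem_univ _, ?_⟩
    · exact mul_nonpos_of_nonneg_of_nonpos (hw0 j ε) (hterm ε).le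
    · exact mul_neg_of_pos_of_neg hε (hterm ε)
  have hQpos : ∀ i j, (M i j == M i₀ j) = false → 0 < φ i (Q j) := by
    intro i j hij
    obtain ⟨ε, hε⟩ := hexw j
    rw [hφQ]
    have hterm : ∀ ε, 0 < φ i (P j ε) := fun ε => hφpos _ _ _ (by simpa [pad] using hij)
    refine Finset.sum_pos' (fun ε _ => ?_) ⟨ε, Finset.mem_univ _, ?_⟩
    · exact mul_nonneg (hw0 j ε) (hterm ε).le
    · exact mul_pos hε (hterm ε)
  have hrank := rank_bound ψ φ Q X hX0
    (by intro s
        match s with
        | none => exact hXz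
        | some s => exact hAX _)
    (fun i => hAX _) (fun s j => hw2 j s)
    (indep_of_patterns ψ (P j₀) (hP₁ _) (hP₂ _))
  rw [finrank_LieV, Fintype.card_option, Fintype.card_fin] at hrank
  let B : Matrix ι κ ℝ := Matrix.of fun i j => φ i (Q j)
  refine ⟨B * Matrix.diagonal (fun j => if M i₀ j = true then (-1 : ℝ) else 1), ?_, ?_⟩
  · refine (Matrix.rank_mul_le_left _ _).trans ?_
    change B.rank + _ + _ ≤ _ at hrank
    omega
  · intro i j
    rw [Matrix.mul_diagonal]
    have hB : B i j = φ i (Q j) := rfl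
    rw [hB]
    have h1 := hQneg i j
    have h2 := hQpos i j
    cases hij : M i j <;> cases h0j : M i₀ j <;> simp_all
    

end Pool.Agent.Lib.MP_065e13_lc
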