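import Pool.Agent.Lib.MP_065e13_lc.FromRank
import Pool.Agent.Lib.MP_065e13_lc.Necessity

/-!
# Order types and sign matrices of rank three
-/

namespace Pool.Agent.Lib.MP_065e13_lc

/-- The sign matrix of an abstract order type. Its columns are the points. It has one positive row,
and, for all `i < j` and all signs `σ, τ`, a row for a line passing close to the points `i` and
`j`, having them on its sides `σ` and `τ`. -/
def otMatrix {n : ℕ} (χ : Fin n → Fin n → Fin n → Bool) :
    Option (Fin n × Fin n × Bool × Bool) → Fin n → Bool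
  | none, _ => true
  | some (i, j, σ, τ), k =>
    if i < j then (if k = i then σ else if k = j then τ else orient χ i j k) else true

/-- The scalar product of `ℝ³`. -/
def dot (a b : Fin 3 → ℝ) : ℝ := a 0 * b 0 + a 1 * b 1 + a 2 * b 2

/-- The determinant of three vectors of `ℝ³`. -/
def D3 (a b c : Fin 3 → ℝ) : ℝ :=
  a 0 * (b 1 * c 2 - b 2 * c 1) - a 1 * (b 0 * c 2 - b 2 * c 0) + a 2 * (b 0 * c 1 - b 1 * c 0)

/-- The squared norm of the cross product. -/
def crossSq (a b : Fin 3 → ℝ) : ℝ :=
  (a 1 * b 2 - a 2 * b 1) ^ 2 + (a 2 * b 0 - a 0 * b 2) ^ 2 + (a 0 * b 1 - a 1 * b 0) ^ 2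

lemma dot_mul_crossSq (h a b c : Fin 3 → ℝ) (ha : dot h a = 0) (hb : dot h b = 0) :
    dot h c * crossSq a b = D3 h a b * D3 a b c := by
  simp only [dot, crossSq, D3] at *
  grind

/-- The cross product of two of our vectors is nonzero. -/
lemma crossSq_pos (f g a b : Fin 3 → ℝ) (hfa : 0 < dot f a) (hfb : 0 < dot f b)
    (hga : 0 < dot g a) (hgb : dot g b < 0) : 0 < crossSq a b := by
  by_contra hcon
  have h0 : crossSq a b = 0 := le_antisymm (not_lt.1 hcon) (by unfold crossSq; positivity)
  have h1 : a 1 * b 2 - a 2 * b 1 = 0 := by unfold crossSq at h0; nlinarith [sq_nonneg (a 1 * b 2 - a 2 * b 1), sq_nonneg (a 2 * b 0 - a 0 * b 2), sq_nonneg (a 0 * b 1 - a 1 * b 0)]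
  have h2 : a 2 * b 0 - a 0 * b 2 = 0 := by unfold crossSq at h0; nlinarith [sq_nonneg (a 1 * b 2 - a 2 * b 1), sq_nonneg (a 2 * b 0 - a 0 * b 2), sq_nonneg (a 0 * b 1 - a 1 * b 0)]
  have h3 : a 0 * b 1 - a 1 * b 0 = 0 := by unfold crossSq at h0; nlinarith [sq_nonneg (a 1 * b 2 - a 2 * b 1), sq_nonneg (a 2 * b 0 - a 0 * b 2), sq_nonneg (a 0 * b 1 - a 1 * b 0)]
  have h4 : dot f a * dot g b - dot f b * dot g a = 0 := by
    simp only [dot]
    linear_combination (f 1 * g 2 - f 2 * g 1) * h1 + (f 2 * g 0 - f 0 * g 2) * h2 +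
      (f 0 * g 1 - f 1 * g 0) * h3
  have h5 : dot f a * dot g b < 0 := mul_neg_of_pos_of_neg hfa hgb
  have h6 : 0 < dot f b * dot g a := mul_pos hfb hga
  linarith

/-- A matrix of rank at most three is a matrix of scalar products. -/
lemma exists_factor3 {ι κ : Type} [Finite ι] [Fintype κ] (A : Matrix ι κ ℝ)
    (hA : A.rank ≤ 3) : ∃ (α : ι → Fin 3 → ℝ) (q : κ → Fin 3 → ℝ),
      ∀ i j, A i j = dot (α i) (q j) := by
  obtain ⟨α, q, h⟩ := exists_factor A hA
  refine ⟨fun i l => α i l, fun j l => q j l, fun i j => ?_⟩
  rw [h]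
  simp only [PiLp.inner_apply, RCLike.inner_apply, RCLike.conj_to_real, Fin.sum_univ_three, dot]
  ring

/-- Combining the four lines around two points into a functional vanishing at both. -/
lemma exists_line {κ : Type} (q : κ → Fin 3 → ℝ) (α : Bool → Bool → Fin 3 → ℝ) (i j : κ)
    (hi : ∀ σ τ : Bool, if σ = true then 0 < dot (α σ τ) (q i) else dot (α σ τ) (q i) < 0)
    (hj : ∀ σ τ : Bool, if τ = true then 0 < dot (α σ τ) (q j) else dot (α σ τ) (q j) < 0) :
    ∃ h : Fin 3 → ℝ, dot h (q i) = 0 ∧ dot h (q j) = 0 ∧
      (∀ k, (∀ σ τ, 0 < dot (α σ τ) (q k)) → 0 < dot h (q k)) ∧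
      (∀ k, (∀ σ τ, dot (α σ τ) (q k) < 0) → dot h (q k) < 0) := by
  have hadd : ∀ (c₁ c₂ : ℝ) (a b x : Fin 3 → ℝ), dot (fun l => c₁ * a l + c₂ * b l) x =
      c₁ * dot a x + c₂ * dot b x := by
    intro c₁ c₂ a b x
    simp only [dot]
    ring
  have hi1 := hi true true
  have hi2 := hi true false
  have hi3 := hi false true
  have hi4 := hi false false
  have hj1 := hj true true
  have hj2 := hj true false
  have hj3 := hj false true
  have hj4 := hj false false
  simp only [if_true, Bool.false_eq_true, if_false] at hi1 hi2 hi3 hi4 hj1 hj2 hj3 hj4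
  let β₁ : Fin 3 → ℝ := fun l =>
    (-dot (α true false) (q j)) * α true true l + dot (α true true) (q j) * α true false l
  let β₂ : Fin 3 → ℝ := fun l =>
    (-dot (α false false) (q j)) * α false true l + dot (α false true) (q j) * α false false l
  have hβ₁ : ∀ x, dot β₁ x = (-dot (α true false) (q j)) * dot (α true true) x +
      dot (α true true) (q j) * dot (α true false) x := fun x => hadd _ _ _ _ x
  have hβ₂ : ∀ x, dot β₂ x = (-dot (α false false) (q j)) * dot (α false true) x +
      dot (α false true) (q j) * dot (α false false) x := fun x => hadd _ _ _ _ x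
  have hβ₁i : 0 < dot β₁ (q i) := by
    rw [hβ₁]
    have := mul_pos (neg_pos.2 hj2) hi1
    have := mul_pos hj1 hi2
    linarith
  have hβ₂i : dot β₂ (q i) < 0 := by
    rw [hβ₂]
    have := mul_neg_of_pos_of_neg (neg_pos.2 hj4) hi3
    have := mul_neg_of_pos_of_neg hj3 hi4
    linarith
  refine ⟨fun l => (-dot β₂ (q i)) * β₁ l + dot β₁ (q i) * β₂ l, ?_, ?_, ?_, ?_⟩
  · rw [hadd]
    ring
  · rw [hadd, hβ₁ (q j), hβ₂ (q j)]
    ring
  · intro k hk
    rw [hadd]
    have h1 : 0 < dot β₁ (q k) := by
      rw [hβ₁]
      have := mul_pos (neg_pos.2 hj2) (hk true true)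
      have := mul_pos hj1 (hk true false)
      linarith
    have h2 : 0 < dot β₂ (q k) := by
      rw [hβ₂]
      have := mul_pos (neg_pos.2 hj4) (hk false true)
      have := mul_pos hj3 (hk false false)
      linarith
    have := mul_pos (neg_pos.2 hβ₂i) h1
    have := mul_pos hβ₁i h2
    linarith
  · intro k hk
    rw [hadd]
    have h1 : dot β₁ (q k) < 0 := by
      rw [hβ₁]
      have := mul_neg_of_pos_of_neg (neg_pos.2 hj2) (hk true true)
      have := mul_neg_of_pos_of_neg hj1 (hk true false)
      linarith
    have h2 : dot β₂ (q k) < 0 := by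
      rw [hβ₂]
      have := mul_neg_of_pos_of_neg (neg_pos.2 hj4) (hk false true)
      have := mul_neg_of_pos_of_neg hj3 (hk false false)
      linarith
    have := mul_neg_of_pos_of_neg (neg_pos.2 hβ₂i) h1
    have := mul_neg_of_pos_of_neg hβ₁i h2
    linarith

/-- For a nonzero vector there are two further ones with determinant of a prescribed sign. -/
lemma exists_frame (α : Fin 3 → ℝ) (hα : ∃ x, dot α x ≠ 0) (b : Bool) :
    ∃ u v : Fin 3 → ℝ, if b then 0 < D3 α u v else D3 α u v < 0 := by
  have key : ∃ u v : Fin 3 → ℝ, D3 α u v ≠ 0 := by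
    by_contra hcon
    push Not at hcon
    have h0 := hcon ![0, 1, 0] ![0, 0, 1]
    have h1 := hcon ![1, 0, 0] ![0, 0, 1]
    have h2 := hcon ![1, 0, 0] ![0, 1, 0]
    simp [D3] at h0 h1 h2
    obtain ⟨x, hx⟩ := hα
    apply hx
    simp [dot, h0, h1, h2]
  obtain ⟨u, v, huv⟩ := key
  have hsw : D3 α v u = -D3 α u v := by
    simp only [D3]
    ring
  rcases lt_or_gt_of_ne huv with h | h
  · cases b
    · exact ⟨u, v, by simpa using h⟩
    · exact ⟨v, u, by simp only [if_true]; rw [hsw]; linarith⟩
  · cases b
    · exact ⟨v, u, by simp only [Bool.false_eq_true, if_false]; rw [hsw]; linarith⟩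
    · exact ⟨u, v, by simpa using h⟩

lemma area_eq (α u v a b c : Fin 3 → ℝ) (ha : 0 < dot α a) (hb : 0 < dot α b)
    (hc : 0 < dot α c) :
    area (dot u a / dot α a, dot v a / dot α a) (dot u b / dot α b, dot v b / dot α b)
      (dot u c / dot α c, dot v c / dot α c) =
      D3 α u v * D3 a b c / (dot α a * dot α b * dot α c) := by
  have ha' := ha.ne'
  have hb' := hb.ne'
  have hc' := hc.ne'
  have h1 : area (dot u a / dot α a, dot v a / dot α a) (dot u b / dot α b, dot v b / dot α b)
      (dot u c / dot α c, dot v c / dot α c) =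
      (dot α a * (dot u b * dot v c - dot v b * dot u c) -
        dot u a * (dot α b * dot v c - dot v b * dot α c) +
        dot v a * (dot α b * dot u c - dot u b * dot α c)) /
          (dot α a * dot α b * dot α c) := by
    simp only [area]
    field_simp
    ring
  rw [h1]
  congr 1
  simp only [dot, D3]
  ring

/-- If the sign matrix of an order type has sign rank at most three, the order type is
realizable. -/
theorem orderTypeRealizable_of_signRankLE {n : ℕ} (χ : Fin n → Fin n → Fin n → Bool)
    (h : SignRankLE 3 (otMatrix χ)) : OrderTypeRealizable χ := by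
  classical
  obtain ⟨A, hA, hM⟩ := h
  obtain ⟨α, q, hq⟩ := exists_factor3 A hA
  have hpos : ∀ r k, otMatrix χ r k = true → 0 < dot (α r) (q k) := by
    intro r k h
    rw [← hq]
    exact (hM r k).1 h
  have hneg : ∀ r k, otMatrix χ r k = false → dot (α r) (q k) < 0 := by
    intro r k h
    rw [← hq]
    exact (hM r k).2 h
  by_cases hn : n < 3
  · refine ⟨fun _ => 0, fun i j k hij hjk => ?_⟩
    have := k.2
    have h1 : (i : ℕ) < j := hij
    have h2 : (j : ℕ) < k := hjk
    omega
  push Not at hn
  let α₀ := α none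
  have hα₀ : ∀ k, 0 < dot α₀ (q k) := fun k => hpos none k rfl
  -- lines through two points
  have hline : ∀ i j, i < j → ∃ h : Fin 3 → ℝ, dot h (q i) = 0 ∧ dot h (q j) = 0 ∧
      (∀ k, k ≠ i → k ≠ j → orient χ i j k = true → 0 < dot h (q k)) ∧
      (∀ k, k ≠ i → k ≠ j → orient χ i j k = false → dot h (q k) < 0) := by
    intro i j hij
    obtain ⟨h, h1, h2, h3, h4⟩ := exists_line q (fun σ τ => α (some (i, j, σ, τ))) i j
      (by
        intro σ τ
        cases σ
        · simp only [Bool.false_eq_true, if_false]
          exact hneg _ _ (by simp [otMatrix, hij])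
        · simp only [if_true]
          exact hpos _ _ (by simp [otMatrix, hij]))
      (by
        intro σ τ
        cases τ
        · simp only [Bool.false_eq_true, if_false]
          exact hneg _ _ (by simp [otMatrix, hij, hij.ne'])
        · simp only [if_true]
          exact hpos _ _ (by simp [otMatrix, hij, hij.ne']))
    refine ⟨h, h1, h2, fun k hki hkj hk => h3 k fun σ τ => ?_, fun k hki hkj hk =>
      h4 k fun σ τ => ?_⟩
    · exact hpos _ _ (by simp [otMatrix, hij, hki, hkj, hk])
    · exact hneg _ _ (by simp [otMatrix, hij, hki, hkj, hk])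
  -- the sign attached to a pair
  have hs : ∃ s : Fin n → Fin n → ℝ, ∀ i j, i < j →
      (∀ k, k ≠ i → k ≠ j → orient χ i j k = true → 0 < s i j * D3 (q i) (q j) (q k)) ∧
      (∀ k, k ≠ i → k ≠ j → orient χ i j k = false → s i j * D3 (q i) (q j) (q k) < 0) := by
    have : ∀ i j, ∃ s : ℝ, i < j →
      (∀ k, k ≠ i → k ≠ j → orient χ i j k = true → 0 < s * D3 (q i) (q j) (q k)) ∧
      (∀ k, k ≠ i → k ≠ j → orient χ i j k = false → s * D3 (q i) (q j) (q k) < 0) := by
      intro i j
      by_cases hij : i < j
      · obtain ⟨h, h1, h2, h3, h4⟩ := hline i j hij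
        have hc : 0 < crossSq (q i) (q j) := by
          refine crossSq_pos α₀ (α (some (i, j, true, false))) _ _ (hα₀ i) (hα₀ j) ?_ ?_
          · exact hpos _ _ (by simp [otMatrix, hij])
          · exact hneg _ _ (by simp [otMatrix, hij, hij.ne'])
        refine ⟨D3 h (q i) (q j), fun _ => ⟨fun k hki hkj hk => ?_, fun k hki hkj hk => ?_⟩⟩
        · rw [← dot_mul_crossSq h (q i) (q j) (q k) h1 h2]
          exact mul_pos (h3 k hki hkj hk) hc
        · rw [← dot_mul_crossSq h (q i) (q j) (q k) h1 h2]
          exact mul_neg_of_neg_of_pos (h4 k hki hkj hk) hc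
      · exact ⟨0, fun h => absurd h hij⟩
    choose s hs using this
    exact ⟨s, hs⟩
  obtain ⟨s, hs⟩ := hs
  -- the three signs of a triple
  have htri : ∀ i j k, i < j → j < k →
      (χ i j k = true → 0 < s i j * D3 (q i) (q j) (q k) ∧ 0 < s i k * D3 (q i) (q j) (q k) ∧
        0 < s j k * D3 (q i) (q j) (q k)) ∧
      (χ i j k = false → s i j * D3 (q i) (q j) (q k) < 0 ∧
        s i k * D3 (q i) (q j) (q k) < 0 ∧ s j k * D3 (q i) (q j) (q k) < 0) := by
    intro i j k hij hjk
    have hik := hij.trans hjk
    have e1 : orient χ i j k = χ i j k := by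
      simp [orient, not_lt.2 hik.le, not_lt.2 hjk.le]
    have e2 : orient χ i k j = !(χ i j k) := by
      simp [orient, not_lt.2 hij.le, hjk]
    have e3 : orient χ j k i = χ i j k := by
      simp [orient, hij]
    have d2 : D3 (q i) (q k) (q j) = -D3 (q i) (q j) (q k) := by
      simp only [D3]
      ring
    have d3 : D3 (q j) (q k) (q i) = D3 (q i) (q j) (q k) := by
      simp only [D3]
      ring
    have a1 := hs i j hij
    have a2 := hs i k hik
    have a3 := hs j k hjk
    constructor
    · intro hχ
      refine ⟨a1.1 k hik.ne' hjk.ne' (by rw [e1, hχ]), ?_, ?_⟩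
      · have := a2.2 j hij.ne' hjk.ne (by rw [e2, hχ]; rfl)
        rw [d2] at this
        linarith
      · have := a3.1 i hij.ne hik.ne (by rw [e3, hχ])
        rwa [d3] at this
    · intro hχ
      refine ⟨a1.2 k hik.ne' hjk.ne' (by rw [e1, hχ]), ?_, ?_⟩
      · have := a2.1 j hij.ne' hjk.ne (by rw [e2, hχ]; rfl)
        rw [d2] at this
        linarith
      · have := a3.2 i hij.ne hik.ne (by rw [e3, hχ])
        rwa [d3] at this
  -- all the signs agree
  have hsame : ∀ x y z : ℝ, ((0 < x * z ∧ 0 < y * z) ∨ (x * z < 0 ∧ y * z < 0)) →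
      (0 < x ↔ 0 < y) := by
    intro x y z h
    rcases lt_trichotomy z 0 with hz | hz | hz
    · constructor
      · intro hx
        by_contra hy
        push Not at hy
        rcases h with ⟨h1, h2⟩ | ⟨h1, h2⟩
        · nlinarith
        · nlinarith
      · intro hx
        by_contra hy
        push Not at hy
        rcases h with ⟨h1, h2⟩ | ⟨h1, h2⟩
        · nlinarith
        · nlinarith
    · subst hz
      rcases h with ⟨h1, h2⟩ | ⟨h1, h2⟩ <;> simp at h1
    · constructor
      · intro hx
        by_contra hy
        push Not at hy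
        rcases h with ⟨h1, h2⟩ | ⟨h1, h2⟩
        · nlinarith
        · nlinarith
      · intro hx
        by_contra hy
        push Not at hy
        rcases h with ⟨h1, h2⟩ | ⟨h1, h2⟩
        · nlinarith
        · nlinarith
  have htri' : ∀ i j k, i < j → j < k → (0 < s i j ↔ 0 < s i k) ∧ (0 < s i j ↔ 0 < s j k) := by
    intro i j k hij hjk
    have := htri i j k hij hjk
    cases hχ : χ i j k
    · obtain ⟨h1, h2, h3⟩ := this.2 hχ
      exact ⟨hsame _ _ _ (Or.inr ⟨h1, h2⟩), hsame _ _ _ (Or.inr ⟨h1, h3⟩)⟩
    · obtain ⟨h1, h2, h3⟩ := this.1 hχ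
      exact ⟨hsame _ _ _ (Or.inl ⟨h1, h2⟩), hsame _ _ _ (Or.inl ⟨h1, h3⟩)⟩
  let i0 : Fin n := ⟨0, by omega⟩
  let i1 : Fin n := ⟨1, by omega⟩
  have h01 : i0 < i1 := by
    rw [Fin.lt_def]
    simp [i0, i1]
  have hzero : ∀ j, i0 < j → (0 < s i0 j ↔ 0 < s i0 i1) := by
    intro j hj
    by_cases hj1 : j = i1
    · rw [hj1]
    · have h1j : i1 < j := by
        rw [Fin.lt_def] at hj ⊢
        have : (j : ℕ) ≠ 1 := fun h => hj1 (Fin.ext h)
        simp only [i0, i1] at hj ⊢
        omega
      exact (htri' i0 i1 j h01 h1j).1.symm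
  have hconst : ∀ i j, i < j → (0 < s i j ↔ 0 < s i0 i1) := by
    intro i j hij
    by_cases hi : i = i0
    · rw [hi]
      exact hzero j (hi ▸ hij)
    · have h0i : i0 < i := by
        rw [Fin.lt_def]
        have : (i : ℕ) ≠ 0 := fun h => hi (Fin.ext h)
        simp only [i0]
        omega
      exact (htri' i0 i j h0i hij).2.symm.trans (hzero i h0i)
  obtain ⟨u, v, huv⟩ := exists_frame α₀ ⟨q i0, (hα₀ i0).ne'⟩ (decide (0 < s i0 i1))
  refine ⟨fun k => (dot u (q k) / dot α₀ (q k), dot v (q k) / dot α₀ (q k)),
    fun i j k hij hjk => ?_⟩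
  rw [area_eq α₀ u v _ _ _ (hα₀ i) (hα₀ j) (hα₀ k)]
  have hden : 0 < dot α₀ (q i) * dot α₀ (q j) * dot α₀ (q k) :=
    mul_pos (mul_pos (hα₀ i) (hα₀ j)) (hα₀ k)
  have ht := htri i j k hij hjk
  have hc := hconst i j hij
  by_cases hb : 0 < s i0 i1
  · have hsij := hc.2 hb
    simp only [hb, decide_true, if_true] at huv
    constructor
    · intro hχ
      have h1 := (ht.1 hχ).1
      have h2 : 0 < D3 (q i) (q j) (q k) := pos_of_mul_pos_right h1 hsij.le
      exact div_pos (mul_pos huv h2) hden
    · intro hχ
      have h1 := (ht.2 hχ).1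
      have h2 : D3 (q i) (q j) (q k) < 0 := by
        by_contra hcon
        push Not at hcon
        have := mul_nonneg hsij.le hcon
        linarith
      exact div_neg_of_neg_of_pos (mul_neg_of_pos_of_neg huv h2) hden
  · have hsij : s i j ≤ 0 := not_lt.1 (fun h => hb (hc.1 h))
    simp only [hb, decide_false, Bool.false_eq_true, if_false] at huv
    constructor
    · intro hχ
      have h1 := (ht.1 hχ).1
      have h2 : D3 (q i) (q j) (q k) < 0 := by
        by_contra hcon
        push Not at hcon
        have := mul_nonpos_of_nonpos_of_nonneg hsij hcon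
        linarith
      exact div_pos (mul_pos_of_neg_of_neg huv h2) hden
    · intro hχ
      have h1 := (ht.2 hχ).1
      have h2 : 0 < D3 (q i) (q j) (q k) := by
        by_contra hcon
        push Not at hcon
        have := mul_nonneg_of_nonpos_of_nonpos hsij hcon
        linarith
      exact div_neg_of_neg_of_pos (mul_neg_of_neg_of_pos huv h2) hden

/-! ### From points to a matrix of rank three -/

/-- Affine functions of the plane. -/
def aff (c : Fin 3 → ℝ) (x : ℝ × ℝ) : ℝ := c 0 + c 1 * x.1 + c 2 * x.2

lemma area_swap (p q r : ℝ × ℝ) : area p r q = -area p q r := by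
  simp only [area]
  ring

lemma area_rot (p q r : ℝ × ℝ) : area q r p = area p q r := by
  simp only [area]
  ring

/-- The affine function `x ↦ area p q x`. -/
lemma exists_aff_area (p q : ℝ × ℝ) : ∃ c : Fin 3 → ℝ, ∀ x, aff c x = area p q x := by
  refine ⟨![p.1 * (q.2 - p.2) - p.2 * (q.1 - p.1), -(q.2 - p.2), q.1 - p.1], fun x => ?_⟩
  simp [aff, area]
  ring

/-- An affine function with prescribed values at two distinct points. -/
lemma exists_aff_values (p q : ℝ × ℝ) (hpq : p ≠ q) (a b : ℝ) :
    ∃ c : Fin 3 → ℝ, aff c p = a ∧ aff c q = b := by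
  have hne : 0 < (q.1 - p.1) ^ 2 + (q.2 - p.2) ^ 2 := by
    by_contra hcon
    push Not at hcon
    have h1 : q.1 - p.1 = 0 := by nlinarith [sq_nonneg (q.1 - p.1), sq_nonneg (q.2 - p.2)]
    have h2 : q.2 - p.2 = 0 := by nlinarith [sq_nonneg (q.1 - p.1), sq_nonneg (q.2 - p.2)]
    exact hpq (Prod.ext (by linarith) (by linarith))
  set D := (q.1 - p.1) ^ 2 + (q.2 - p.2) ^ 2 with hD
  refine ⟨![a - (b - a) / D * ((q.1 - p.1) * p.1 + (q.2 - p.2) * p.2),
    (b - a) / D * (q.1 - p.1), (b - a) / D * (q.2 - p.2)], ?_, ?_⟩
  · simp [aff]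
    ring
  · have h1 : (b - a) / D * D = b - a := by field_simp
    simp [aff]
    have h2 : a - (b - a) / D * ((q.1 - p.1) * p.1 + (q.2 - p.2) * p.2) +
        (b - a) / D * (q.1 - p.1) * q.1 + (b - a) / D * (q.2 - p.2) * q.2 =
        a + (b - a) / D * ((q.1 - p.1) ^ 2 + (q.2 - p.2) ^ 2) := by ring
    rw [h2, ← hD, h1]
    ring

/-- A realizable order type has an injective realization. -/
lemma exists_injective {n : ℕ} (χ : Fin n → Fin n → Fin n → Bool)
    (h : OrderTypeRealizable χ) : ∃ p : Fin n → ℝ × ℝ, Function.Injective p ∧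
      ∀ i j k, i < j → j < k → (χ i j k = true → 0 < area (p i) (p j) (p k)) ∧
        (χ i j k = false → area (p i) (p j) (p k) < 0) := by
  by_cases hn : n < 3
  · refine ⟨fun i => ((i : ℕ), 0), fun i j hij => ?_, fun i j k hij hjk => ?_⟩
    · simp only [Prod.mk.injEq, Nat.cast_inj, and_true] at hij
      exact Fin.ext hij
    · have := k.2
      have h1 : (i : ℕ) < j := hij
      have h2 : (j : ℕ) < k := hjk
      omega
  · push Not at hn
    obtain ⟨p, hp⟩ := h
    refine ⟨p, ?_, hp⟩
    have hne : ∀ i j k, i < j → j < k → area (p i) (p j) (p k) ≠ 0 := by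
      intro i j k hij hjk
      have := hp i j k hij hjk
      cases hχ : χ i j k
      · exact (this.2 hχ).ne
      · exact (this.1 hχ).ne'
    have hlt : ∀ i j, i < j → p i ≠ p j := by
      intro i j hij heq
      have hij' : (i : ℕ) < j := hij
      obtain ⟨k, hk⟩ : ∃ k : Fin n, k ≠ i ∧ k ≠ j := by
        by_contra hcon
        push Not at hcon
        have h0 : ∀ k : Fin n, k = i ∨ k = j := fun k => by
          by_cases hk : k = i
          · exact Or.inl hk
          · exact Or.inr (hcon k hk)
        have hcard : Fintype.card (Fin n) ≤ 2 := by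
          rw [← Finset.card_univ]
          refine (Finset.card_le_card (t := {i, j}) fun k _ => ?_).trans Finset.card_le_two
          rcases h0 k with h | h <;> simp [h]
        rw [Fintype.card_fin] at hcard
        omega
      rcases lt_trichotomy k i with h1 | h1 | h1
      · apply hne k i j h1 hij
        rw [heq]
        simp [area]
      · exact hk.1 h1
      · rcases lt_trichotomy k j with h2 | h2 | h2
        · apply hne i k j h1 h2
          rw [heq]
          simp [area]
        · exact hk.2 h2
        · apply hne i j k hij h2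
          rw [heq]
          simp [area]
    intro i j hij
    rcases lt_trichotomy i j with h | h | h
    · exact absurd hij (hlt i j h)
    · exact h
    · exact absurd hij.symm (hlt j i h)

/-- If an order type is realizable then its sign matrix has sign rank at most three. -/
theorem signRankLE_of_orderTypeRealizable {n : ℕ} (χ : Fin n → Fin n → Fin n → Bool)
    (h : OrderTypeRealizable χ) : SignRankLE 3 (otMatrix χ) := by
  classical
  obtain ⟨p, hinj, hp⟩ := exists_injective χ h
  have horient : ∀ i j k, i < j → k ≠ i → k ≠ j →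
      (orient χ i j k = true → 0 < area (p i) (p j) (p k)) ∧
      (orient χ i j k = false → area (p i) (p j) (p k) < 0) := by
    intro i j k hij hki hkj
    rcases lt_trichotomy k i with h1 | h1 | h1
    · have e : orient χ i j k = χ k i j := by simp [orient, h1]
      rw [e, area_rot (p k) (p i) (p j)]
      exact hp k i j h1 hij
    · exact absurd h1 hki
    · rcases lt_trichotomy k j with h2 | h2 | h2
      · have e : orient χ i j k = !(χ i k j) := by simp [orient, not_lt.2 h1.le, h2]
        rw [e, area_swap (p i) (p k) (p j)]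
        have := hp i k j h1 h2
        constructor
        · intro h
          have h3 : χ i k j = false := by simpa using h
          linarith [this.2 h3]
        · intro h
          have h3 : χ i k j = true := by simpa using h
          linarith [this.1 h3]
      · exact absurd h2 hkj
      · have e : orient χ i j k = χ i j k := by simp [orient, not_lt.2 h1.le, not_lt.2 h2.le]
        rw [e]
        exact hp i j k hij h2
  have hrow : ∀ r, ∃ c : Fin 3 → ℝ, ∀ k, (otMatrix χ r k = true → 0 < aff c (p k)) ∧
      (otMatrix χ r k = false → aff c (p k) < 0) := by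
    intro r
    match r with
    | none => exact ⟨![1, 0, 0], fun k => by simp [otMatrix, aff]⟩
    | some (i, j, σ, τ) =>
      by_cases hij : i < j
      · obtain ⟨c, hc⟩ := exists_aff_area (p i) (p j)
        obtain ⟨b, hb1, hb2⟩ := exists_aff_values (p i) (p j) (hinj.ne hij.ne) (sg σ) (sg τ)
        have key : ∀ᶠ ε in nhdsWithin (0 : ℝ) (Set.Ioi 0), ∀ k,
            (otMatrix χ (some (i, j, σ, τ)) k = true → 0 < aff c (p k) + ε * aff b (p k)) ∧
            (otMatrix χ (some (i, j, σ, τ)) k = false → aff c (p k) + ε * aff b (p k) < 0) := by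
          rw [Filter.eventually_all]
          intro k
          have hsg : ∀ s : Bool, (s = true → 0 < sg s) ∧ (s = false → sg s < 0) := by
            intro s
            cases s <;> simp [sg]
          by_cases hki : k = i
          · filter_upwards [self_mem_nhdsWithin] with ε hε
            have hε' : 0 < ε := hε
            have e1 : otMatrix χ (some (i, j, σ, τ)) k = σ := by simp [otMatrix, hij, hki]
            have e2 : aff c (p k) = 0 := by rw [hc, hki]; simp [area]
            rw [e1, e2, hki, hb1, zero_add]
            exact ⟨fun h => mul_pos hε' ((hsg σ).1 h),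
              fun h => mul_neg_of_pos_of_neg hε' ((hsg σ).2 h)⟩
          · by_cases hkj : k = j
            · filter_upwards [self_mem_nhdsWithin] with ε hε
              have hε' : 0 < ε := hε
              have e1 : otMatrix χ (some (i, j, σ, τ)) k = τ := by
                simp [otMatrix, hij, hkj, hij.ne']
              have e2 : aff c (p k) = 0 := by rw [hc, hkj]; simp [area]
              rw [e1, e2, hkj, hb2, zero_add]
              exact ⟨fun h => mul_pos hε' ((hsg τ).1 h),
                fun h => mul_neg_of_pos_of_neg hε' ((hsg τ).2 h)⟩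
            · have e1 : otMatrix χ (some (i, j, σ, τ)) k = orient χ i j k := by
                simp [otMatrix, hij, hki, hkj]
              rw [e1]
              have ho := horient i j k hij hki hkj
              rw [← hc] at ho
              have hlim : Filter.Tendsto (fun ε : ℝ => aff c (p k) + ε * aff b (p k))
                  (nhdsWithin 0 (Set.Ioi 0)) (nhds (aff c (p k))) := by
                have : Filter.Tendsto (fun ε : ℝ => aff c (p k) + ε * aff b (p k)) (nhds 0)
                    (nhds (aff c (p k) + 0 * aff b (p k))) :=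
                  (continuous_const.add (continuous_id.mul continuous_const)).tendsto 0
                rw [zero_mul, add_zero] at this
                exact this.mono_left nhdsWithin_le_nhds
              cases hor : orient χ i j k
              · filter_upwards [hlim.eventually_lt_const (ho.2 hor)] with ε hε
                exact ⟨fun h => by simp at h, fun _ => hε⟩
              · filter_upwards [hlim.eventually_const_lt (ho.1 hor)] with ε hε
                exact ⟨fun _ => hε, fun h => by simp at h⟩
        obtain ⟨ε, hε⟩ := key.exists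
        refine ⟨fun l => c l + ε * b l, fun k => ?_⟩
        have e : aff (fun l => c l + ε * b l) (p k) = aff c (p k) + ε * aff b (p k) := by
          simp only [aff]
          ring
        rw [e]
        exact hε k
      · exact ⟨![1, 0, 0], fun k => by simp [otMatrix, aff, hij]⟩
  choose c hc using hrow
  refine ⟨(Matrix.of fun r l => c r l) * (Matrix.of fun (l : Fin 3) k => ![1, (p k).1, (p k).2] l),
    ?_, ?_⟩
  · refine (Matrix.rank_mul_le_right _ _).trans ?_
    refine (Matrix.rank_le_card_height _).trans ?_
    simp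
  · intro r k
    have e : ((Matrix.of fun r l => c r l) *
        (Matrix.of fun (l : Fin 3) k => ![1, (p k).1, (p k).2] l) : Matrix _ _ ℝ) r k =
        aff (c r) (p k) := by
      rw [Matrix.mul_apply, Fin.sum_univ_three]
      simp [aff]
    rw [e]
    exact hc r k

/-- Realizability of order types is sign rank three of the associated sign matrices. -/
theorem signRankLE_iff {n : ℕ} (χ : Fin n → Fin n → Fin n → Bool) :
    SignRankLE 3 (otMatrix χ) ↔ OrderTypeRealizable χ :=
  ⟨orderTypeRealizable_of_signRankLE χ, signRankLE_of_orderTypeRealizable χ⟩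

/-- The number of vertices of the gadget graph. -/
lemma card_vtx {I J : Type} [Fintype I] [Fintype J] :
    Fintype.card (Vtx I J) = 2 * Fintype.card J + 2 * Fintype.card I + 3 := by
  let f : Vtx I J ≃ (J × Bool) ⊕ (I × Bool) ⊕ Fin 3 :=
    { toFun := fun u =>
        match u with
        | .col j b => .inl (j, b)
        | .row i b => .inr (.inl (i, b))
        | .z => .inr (.inr 0)
        | .x₁ => .inr (.inr 1)
        | .x₂ => .inr (.inr 2)
      invFun := fun u =>
        match u with
        | .inl (j, b) => .col j b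
        | .inr (.inl (i, b)) => .row i b
        | .inr (.inr 0) => .z
        | .inr (.inr 1) => .x₁
        | .inr (.inr 2) => .x₂
      left_inv := by rintro (_ | _ | _ | _ | _) <;> rfl
      right_inv := by
        rintro (⟨_, _⟩ | ⟨_, _⟩ | k)
        · rfl
        · rfl
        · fin_cases k <;> rfl }
  rw [Fintype.card_congr f]
  simp only [Fintype.card_sum, Fintype.card_prod, Fintype.card_bool, Fintype.card_fin]
  ring

/-- The reduction of the sign rank problem to the recognition of ball graphs. -/
theorem signRankLE_iff_isBallGraph {ι κ : Type} [Finite ι] [Fintype κ] {k d : ℕ} (hkd : k ≤ d)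
    (hd : 2 ≤ d) (i₀ : ι) (M : ι → κ → Bool) :
    SignRankLE k M ↔ IsBallGraph d (gadget (pad (d - k + 1) i₀ M)) := by
  obtain ⟨t, rfl⟩ := Nat.exists_eq_add_of_le hkd
  have e : k + t - k + 1 = t + 1 := by omega
  rw [e]
  exact ⟨isBallGraph_of_signRankLE hd i₀ M, signRankLE_of_isBallGraph (by omega) i₀ M⟩

end Pool.Agent.Lib.MP_065e13_lc
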