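import Pool.Agent.Lib.MP_065e13_lc.Ball
import Pool.Agent.Lib.MP_065e13_lc.OrderType
import Pool.Agent.Lib.MP_0f8b55_lc.PTProofs

/-!
# From a sign matrix, given by lists of row and column names, to a graph code
-/

namespace Pool.Agent.Lib.MP_065e13_lc

open Pool.Agent.Lib.PolyTime Pool.Agent.Lib.MP_0f8b55_lc

/-! ### Graphs given by a list of vertex names and an adjacency test -/

/-- The graph code of a list of names and an adjacency test. -/
def listCode {α : Type} (vs : List α) (adj : α → α → Bool) : GraphCode :=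
  (vs.length, vs.zipIdx.flatMap (fun p =>
    (vs.zipIdx.filter (fun q => adj p.1 q.1)).map (fun q => (p.2, q.2))))

theorem mem_listCode {α : Type} (vs : List α) (adj : α → α → Bool) (i j : ℕ) :
    (i, j) ∈ (listCode vs adj).2 ↔
      ∃ (hi : i < vs.length) (hj : j < vs.length), adj vs[i] vs[j] = true := by
  simp only [listCode, List.mem_flatMap, List.mem_map, List.mem_filter, Prod.exists,
    Prod.mk.injEq, List.mk_mem_zipIdx_iff_getElem?]
  constructor
  · rintro ⟨x, i', hx, y, j', ⟨hy, hxy⟩, rfl, rfl⟩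
    obtain ⟨h1, h2⟩ := List.getElem?_eq_some_iff.1 hx
    obtain ⟨h3, h4⟩ := List.getElem?_eq_some_iff.1 hy
    exact ⟨h1, h3, by rw [h2, h4]; exact hxy⟩
  · rintro ⟨hi, hj, h⟩
    exact ⟨_, i, List.getElem?_eq_getElem hi, _, j, ⟨List.getElem?_eq_getElem hj, h⟩, rfl, rfl⟩

theorem graph_adj (I : GraphCode) (u v : Fin I.1) :
    I.graph.Adj u v ↔ u ≠ v ∧ ((u.1, v.1) ∈ I.2 ∨ (v.1, u.1) ∈ I.2) := by
  rw [GraphCode.graph, SimpleGraph.fromRel_adj]

theorem listCode_adj {α : Type} (vs : List α) (adj : α → α → Bool) (u v : Fin vs.length) :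
    (listCode vs adj).graph.Adj u v ↔ u ≠ v ∧ (adj vs[u] vs[v] = true ∨ adj vs[v] vs[u] = true) := by
  refine (graph_adj (listCode vs adj) u v).trans ?_
  rw [mem_listCode, mem_listCode]
  constructor
  · rintro ⟨h, ⟨_, _, h1⟩ | ⟨_, _, h1⟩⟩
    · exact ⟨h, Or.inl h1⟩
    · exact ⟨h, Or.inr h1⟩
  · rintro ⟨h, h1 | h1⟩
    · exact ⟨h, Or.inl ⟨u.2, v.2, h1⟩⟩
    · exact ⟨h, Or.inr ⟨v.2, u.2, h1⟩⟩

theorem isBallGraph_congr {d : ℕ} {V W : Type} (G : SimpleGraph V) (H : SimpleGraph W) (e : V ≃ W)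
    (h : ∀ u v, G.Adj u v ↔ H.Adj (e u) (e v)) : IsBallGraph d G ↔ IsBallGraph d H := by
  constructor
  · rintro ⟨c, r, hr, hG⟩
    refine ⟨fun w => c (e.symm w), fun w => r (e.symm w), fun w => hr _, fun u v huv => ?_⟩
    rw [← hG _ _ (e.symm.injective.ne huv), h, Equiv.apply_symm_apply, Equiv.apply_symm_apply]
  · rintro ⟨c, r, hr, hH⟩
    refine ⟨fun w => c (e w), fun w => r (e w), fun w => hr _, fun u v huv => ?_⟩
    rw [← hH _ _ (e.injective.ne huv), h]

theorem isBallGraph_listCode {d : ℕ} {V α : Type} (G : SimpleGraph V) (vs : List α)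
    (hn : vs.Nodup) (name : V → α) (hinj : Function.Injective name)
    (hmem : ∀ x, x ∈ vs ↔ ∃ v, name v = x) (adj : α → α → Bool)
    (hadj : ∀ u v, G.Adj u v ↔
      u ≠ v ∧ (adj (name u) (name v) = true ∨ adj (name v) (name u) = true)) :
    IsBallGraph d (listCode vs adj).graph ↔ IsBallGraph d G := by
  classical
  let f : V → Fin vs.length := fun v => ⟨vs.idxOf (name v),
    List.idxOf_lt_length_iff.2 ((hmem _).2 ⟨v, rfl⟩)⟩
  have hf : ∀ v, vs[f v] = name v := fun v => List.getElem_idxOf _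
  have hbij : Function.Bijective f := by
    constructor
    · intro u v huv
      apply hinj
      rw [← hf u, ← hf v, huv]
    · intro i
      obtain ⟨v, hv⟩ := (hmem vs[i]).1 (List.getElem_mem _)
      refine ⟨v, ?_⟩
      have h1 : vs[f v] = vs[i] := by rw [hf, hv]
      exact Fin.ext ((List.Nodup.getElem_inj_iff hn).1 h1)
  refine (isBallGraph_congr G (listCode vs adj).graph (Equiv.ofBijective f hbij) ?_).symm
  intro u v
  refine (hadj u v).trans (Iff.trans ?_ (listCode_adj vs adj (f u) (f v)).symm)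
  rw [hf, hf, hbij.1.ne_iff]

/-! ### The gadget graph -/

/-- Names of the vertices. -/
abbrev Nm (ρ κ : Type) : Type :=
  ((κ × ℕ) × (List Bool × Bool)) ⊕ ((((ρ × ℕ) ⊕ ℕ) × Bool) ⊕ ℕ)

/-- The adjacency of a column vertex and a row vertex. -/
def adjCR {ρ κ : Type} (r0 : ρ) (M : ρ → κ → Bool) (x : (κ × ℕ) × (List Bool × Bool))
    (y : ((ρ × ℕ) ⊕ ℕ) × Bool) : Bool :=
  match y.1 with
  | .inl r => M r.1 x.1.1 == M r0 x.1.1
  | .inr s => x.2.1.getD s false

/-- The adjacency, up to symmetry. -/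
def adjN {ρ κ : Type} (r0 : ρ) (M : ρ → κ → Bool) : Nm ρ κ → Nm ρ κ → Bool
  | .inl _, .inl _ => true
  | .inl x, .inr (.inl y) => adjCR r0 M x y
  | .inl x, .inr (.inr k) => if k = 0 then x.2.2 else decide (k = 1)
  | .inr _, .inl _ => false
  | .inr (.inl _), .inr (.inl _) => true
  | .inr (.inl y), .inr (.inr k) => if k = 0 then false else y.2
  | .inr (.inr _), .inr (.inl _) => false
  | .inr (.inr k), .inr (.inr k') => decide (k = 0) && decide (k' = 1)

/-- All sign vectors of length `t`. -/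
def signs : ℕ → List (List Bool)
  | 0 => [[]]
  | t + 1 => (signs t).flatMap (fun l => [false :: l, true :: l])

theorem mem_signs (t : ℕ) (l : List Bool) : l ∈ signs t ↔ l.length = t := by
  induction t generalizing l with
  | zero => simp [signs]
  | succ t ih =>
    simp only [signs, List.mem_flatMap, ih, List.mem_cons, List.not_mem_nil, or_false]
    constructor
    · rintro ⟨l', h, rfl | rfl⟩ <;> simp [h]
    · intro h
      rcases l with _ | ⟨b, l⟩
      · simp at h
      · refine ⟨l, by simpa using h, ?_⟩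
        cases b <;> simp

theorem nodup_signs (t : ℕ) : (signs t).Nodup := by
  induction t with
  | zero => simp [signs]
  | succ t ih =>
    rw [signs, List.nodup_flatMap]
    refine ⟨fun l _ => by simp, ?_⟩
    refine ih.imp ?_
    intro a b hab
    simp only [Function.onFun, List.disjoint_cons_left, List.mem_cons, List.cons.injEq,
      List.not_mem_nil, or_false, hab, and_false, or_self, not_false_eq_true,
      List.disjoint_nil_left, and_self]

/-- The names of the column vertices. -/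
def colNames {κ : Type} (t : ℕ) (cs : List κ) : List ((κ × ℕ) × (List Bool × Bool)) :=
  cs.zipIdx.flatMap (fun c => ((signs t).flatMap (fun ε => [(ε, false), (ε, true)])).map
    (fun k => (c, k)))

/-- The names of the row vertices. -/
def rowNames {ρ : Type} (t : ℕ) (rs : List ρ) : List (((ρ × ℕ) ⊕ ℕ) × Bool) :=
  (rs.zipIdx.map Sum.inl ++ (List.range t).map Sum.inr).flatMap
    (fun r => [(r, false), (r, true)])

/-- The names of the vertices. -/
def names {ρ κ : Type} (t : ℕ) (rs : List ρ) (cs : List κ) : List (Nm ρ κ) :=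
  (colNames t cs).map Sum.inl ++ ((rowNames t rs).map (fun y => Sum.inr (Sum.inl y)) ++
    [Sum.inr (Sum.inr 0), Sum.inr (Sum.inr 1), Sum.inr (Sum.inr 2)])

/-- The graph code of a sign matrix, for dimension `d = t + 2`. -/
def ballCode {ρ κ : Type} (t : ℕ) (r0 : ρ) (rs : List ρ) (cs : List κ) (M : ρ → κ → Bool) :
    GraphCode :=
  listCode (names t rs cs) (adjN r0 M)

theorem nodup_zipIdx {α : Type} (l : List α) : l.zipIdx.Nodup := by
  refine List.Nodup.of_map Prod.snd ?_
  rw [List.zipIdx_map_snd]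
  exact List.nodup_range'

theorem nodup_two {α : Type} {l : List α} (hl : l.Nodup) :
    (l.flatMap (fun r => [(r, false), (r, true)])).Nodup := by
  rw [List.nodup_flatMap]
  refine ⟨fun l _ => by simp, ?_⟩
  refine hl.imp ?_
  intro a b hab
  simp [Function.onFun, hab, Ne.symm hab]

theorem mem_two {α : Type} (l : List α) (x : α × Bool) :
    x ∈ l.flatMap (fun r => [(r, false), (r, true)]) ↔ x.1 ∈ l := by
  obtain ⟨a, b⟩ := x
  simp only [List.mem_flatMap, List.mem_cons, Prod.mk.injEq, List.not_mem_nil, or_false]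
  constructor
  · rintro ⟨c, hc, ⟨rfl, _⟩ | ⟨rfl, _⟩⟩ <;> exact hc
  · intro h
    cases b
    · exact ⟨a, h, Or.inl ⟨rfl, rfl⟩⟩
    · exact ⟨a, h, Or.inr ⟨rfl, rfl⟩⟩

theorem nodup_names {ρ κ : Type} (t : ℕ) (rs : List ρ) (cs : List κ) :
    (names t rs cs).Nodup := by
  have h1 : (colNames t cs).Nodup := by
    rw [colNames, List.nodup_flatMap]
    constructor
    · intro c _
      exact (nodup_two (nodup_signs t)).map (fun a b h => by simpa using h)
    · refine (nodup_zipIdx cs).imp ?_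
      intro a b hab
      simp only [Function.onFun]
      intro x hx hy
      simp only [List.mem_map] at hx hy
      obtain ⟨k, _, rfl⟩ := hx
      obtain ⟨k', _, h⟩ := hy
      simp only [Prod.mk.injEq] at h
      exact hab h.1.symm
  have h2 : (rowNames t rs).Nodup := by
    refine nodup_two ?_
    rw [List.nodup_append]
    refine ⟨(nodup_zipIdx rs).map Sum.inl_injective, List.nodup_range.map Sum.inr_injective, ?_⟩
    intro a ha b hb hab
    simp only [List.mem_map] at ha hb
    obtain ⟨x, _, rfl⟩ := ha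
    obtain ⟨y, _, rfl⟩ := hb
    cases hab
  rw [names, List.nodup_append]
  refine ⟨h1.map Sum.inl_injective, ?_, ?_⟩
  · rw [List.nodup_append]
    refine ⟨h2.map (fun a b h => by simpa using h), by simp, ?_⟩
    intro a ha b hb hab
    simp only [List.mem_map] at ha
    obtain ⟨x, _, rfl⟩ := ha
    subst hab
    simp at hb
  · intro a ha b hb hab
    simp only [List.mem_map] at ha
    obtain ⟨x, _, rfl⟩ := ha
    subst hab
    simp at hb

/-- The name of a vertex. -/
def nameOf {ρ κ : Type} (t : ℕ) (rs : List ρ) (cs : List κ) :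
    Vtx (Fin rs.length ⊕ Fin t) (Fin cs.length × (Fin t → Bool)) → Nm ρ κ
  | .col j b => .inl ((cs[j.1], j.1.1), (List.ofFn j.2, b))
  | .row (.inl i) b => .inr (.inl (.inl (rs[i], i.1), b))
  | .row (.inr s) b => .inr (.inl (.inr s.1, b))
  | .z => .inr (.inr 0)
  | .x₁ => .inr (.inr 1)
  | .x₂ => .inr (.inr 2)

theorem nameOf_injective {ρ κ : Type} (t : ℕ) (rs : List ρ) (cs : List κ) :
    Function.Injective (nameOf t rs cs) := by
  intro u v h
  rcases u with ⟨⟨j, ε⟩, b⟩ | ⟨i | s, b⟩ | _ | _ | _ <;>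
    rcases v with ⟨⟨j', ε'⟩, b'⟩ | ⟨i' | s', b'⟩ | _ | _ | _ <;>
    simp only [nameOf, Sum.inl.injEq, Sum.inr.injEq, Prod.mk.injEq, reduceCtorEq] at h ⊢
  · obtain ⟨⟨_, h1⟩, h2, h3⟩ := h
    have h4 := Fin.ext h1
    have h5 := List.ofFn_injective h2
    subst h4 h5 h3
    rfl
  · obtain ⟨⟨_, h1⟩, h3⟩ := h
    have h4 := Fin.ext h1
    subst h4 h3
    rfl
  · exact absurd h.1 (by simp)
  · exact absurd h.1 (by simp)
  · obtain ⟨h1, h3⟩ := h
    have h4 := Fin.ext h1
    subst h4 h3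
    rfl
  all_goals omega

theorem mem_names {ρ κ : Type} (t : ℕ) (rs : List ρ) (cs : List κ) (x : Nm ρ κ) :
    x ∈ names t rs cs ↔ ∃ v, nameOf t rs cs v = x := by
  have hz : ∀ {α : Type} (l : List α) (a : α) (i : ℕ), (a, i) ∈ l.zipIdx ↔
      ∃ h : i < l.length, l[i] = a := by
    intro α l a i
    rw [List.mk_mem_zipIdx_iff_getElem?, List.getElem?_eq_some_iff]
  rcases x with ⟨⟨c, j⟩, ε, b⟩ | ⟨r | s, b⟩ | k
  · have e : (Sum.inl ((c, j), (ε, b)) : Nm ρ κ) ∈ names t rs cs ↔
        (∃ h : j < cs.length, cs[j] = c) ∧ ε.length = t := by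
      simp only [names, List.mem_append, List.mem_map, Sum.inl.injEq, exists_eq_right,
        reduceCtorEq, and_false, exists_false, List.mem_cons, List.not_mem_nil, or_false,
        colNames, List.mem_flatMap, Prod.mk.injEq]
      constructor
      · rintro ⟨⟨c', j'⟩, h1, ⟨ε', b'⟩, h2, h3, h4⟩
        simp only [Prod.mk.injEq] at h3 h4
        obtain ⟨rfl, rfl⟩ := h3
        obtain ⟨rfl, rfl⟩ := h4
        refine ⟨(hz _ _ _).1 h1, ?_⟩
        obtain ⟨ε'', h5, h6⟩ := h2
        have : ε' = ε'' := by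
          rcases h6 with h6 | h6
          · exact (Prod.mk.inj h6).1
          · exact (Prod.mk.inj h6).1
        rw [this]
        exact (mem_signs t _).1 h5
      · rintro ⟨h1, h2⟩
        refine ⟨(c, j), (hz _ _ _).2 h1, (ε, b), ⟨ε, (mem_signs t _).2 h2, ?_⟩, rfl, rfl⟩
        cases b <;> simp
    rw [e]
    constructor
    · rintro ⟨⟨h1, rfl⟩, rfl⟩
      refine ⟨.col (⟨j, h1⟩, fun s => ε[s]) b, ?_⟩
      simp only [nameOf, Sum.inl.injEq, Prod.mk.injEq, and_true, true_and]
      exact ⟨rfl, List.ofFn_getElem⟩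
    · rintro ⟨v, hv⟩
      rcases v with ⟨⟨j', ε'⟩, b'⟩ | ⟨i' | s', b'⟩ | _ | _ | _ <;>
        simp only [nameOf, Sum.inl.injEq, Sum.inr.injEq, Prod.mk.injEq, reduceCtorEq] at hv
      obtain ⟨⟨rfl, rfl⟩, rfl, rfl⟩ := hv
      exact ⟨⟨j'.2, rfl⟩, by simp⟩
  · obtain ⟨r, i⟩ := r
    have e : (Sum.inr (Sum.inl (Sum.inl (r, i), b)) : Nm ρ κ) ∈ names t rs cs ↔
        (∃ h : i < rs.length, rs[i] = r) := by
      rw [← hz]
      simp only [names, List.mem_append, List.mem_map, Sum.inr.injEq, Sum.inl.injEq,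
        reduceCtorEq, and_false, exists_false, List.mem_cons, List.not_mem_nil, or_false,
        rowNames, exists_eq_right, false_or, mem_two, List.mem_range]
    rw [e]
    constructor
    · rintro ⟨h1, rfl⟩
      exact ⟨.row (.inl ⟨i, h1⟩) b, rfl⟩
    · rintro ⟨v, hv⟩
      rcases v with ⟨⟨j', ε'⟩, b'⟩ | ⟨i' | s', b'⟩ | _ | _ | _ <;>
        simp only [nameOf, Sum.inl.injEq, Sum.inr.injEq, Prod.mk.injEq, reduceCtorEq,
          false_and] at hv
      obtain ⟨⟨rfl, rfl⟩, rfl⟩ := hv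
      exact ⟨i'.2, rfl⟩
  · have e : (Sum.inr (Sum.inl (Sum.inr s, b)) : Nm ρ κ) ∈ names t rs cs ↔ s < t := by
      simp only [names, List.mem_append, List.mem_map, Sum.inr.injEq, Sum.inl.injEq,
        reduceCtorEq, and_false, exists_false, List.mem_cons, List.not_mem_nil, or_false,
        rowNames, exists_eq_right, false_or, mem_two, List.mem_range]
    rw [e]
    constructor
    · intro h1
      exact ⟨.row (.inr ⟨s, h1⟩) b, rfl⟩
    · rintro ⟨v, hv⟩
      rcases v with ⟨⟨j', ε'⟩, b'⟩ | ⟨i' | s', b'⟩ | _ | _ | _ <;>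
        simp only [nameOf, Sum.inl.injEq, Sum.inr.injEq, Prod.mk.injEq, reduceCtorEq,
          false_and] at hv
      obtain ⟨rfl, rfl⟩ := hv
      exact s'.2
  · have e : (Sum.inr (Sum.inr k) : Nm ρ κ) ∈ names t rs cs ↔ (k = 0 ∨ k = 1 ∨ k = 2) := by
      simp only [names, List.mem_append, List.mem_map, Sum.inr.injEq,
        reduceCtorEq, and_false, exists_false, List.mem_cons, List.not_mem_nil, or_false,
        false_or]
    rw [e]
    constructor
    · rintro (rfl | rfl | rfl)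
      · exact ⟨.z, rfl⟩
      · exact ⟨.x₁, rfl⟩
      · exact ⟨.x₂, rfl⟩
    · rintro ⟨v, hv⟩
      rcases v with ⟨⟨j', ε'⟩, b'⟩ | ⟨i' | s', b'⟩ | _ | _ | _ <;>
        simp only [nameOf, Sum.inl.injEq, Sum.inr.injEq, reduceCtorEq] at hv <;> omega

/-- The matrix on indices. -/
def matOf {ρ κ : Type} (rs : List ρ) (cs : List κ) (M : ρ → κ → Bool) :
    Fin rs.length → Fin cs.length → Bool := fun i j => M rs[i] cs[j]

theorem adj_name {ρ κ : Type} (t : ℕ) (rs : List ρ) (cs : List κ) (M : ρ → κ → Bool)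
    (i₀ : Fin rs.length) (u v : Vtx (Fin rs.length ⊕ Fin t) (Fin cs.length × (Fin t → Bool))) :
    adjHalf (pad t i₀ (matOf rs cs M)) u v ↔
      adjN rs[i₀] M (nameOf t rs cs u) (nameOf t rs cs v) = true := by
  rcases u with ⟨⟨j, ε⟩, b⟩ | ⟨i | s, b⟩ | _ | _ | _ <;>
    rcases v with ⟨⟨j', ε'⟩, b'⟩ | ⟨i' | s', b'⟩ | _ | _ | _ <;>
    simp [adjHalf, adjN, nameOf, adjCR, pad, matOf]

theorem ballCode_iff {ρ κ : Type} {t : ℕ} (ht : 1 ≤ t) (rs : List ρ) (cs : List κ)
    (M : ρ → κ → Bool) (i₀ : Fin rs.length) :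
    SignRankLE 3 (matOf rs cs M) ↔
      IsBallGraph (t + 2) (ballCode t rs[i₀] rs cs M).graph := by
  rw [signRankLE_iff_isBallGraph (k := 3) (d := t + 2) (by omega) (by omega) i₀ (matOf rs cs M)]
  have e : t + 2 - 3 + 1 = t := by omega
  rw [e]
  refine (isBallGraph_listCode _ _ (nodup_names t rs cs) (nameOf t rs cs)
    (nameOf_injective t rs cs) (mem_names t rs cs) _ ?_).symm
  intro u v
  change (u ≠ v ∧ (adjHalf _ u v ∨ adjHalf _ v u)) ↔ _
  rw [adj_name, adj_name]

end Pool.Agent.Lib.MP_065e13_lc
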