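import Pool.Agent.Lib.MP_065e13_lc.OrderType

/-!
# Order type realizability reduces to the recognition of ball graphs in every dimension `d ≥ 3`

For every fixed `d ≥ 3` and every abstract order type `χ` on `n` points (a sign for every
increasing triple), we give an explicit graph, of polynomial size in `n`, which is a ball graph in
`ℝ^d` if and only if `χ` is realizable by points of the plane. Realizability of (simple) order
types is the standard complete problem for the existential theory of the reals.

The definitions `IsBallGraph`, `area`, `OrderTypeRealizable` and `orient` are in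
`Pool.Agent.Lib.MP_065e13_lc.Defs`.

Idea of the proof. A ball with centre `c` and radius `r` is represented by its Lie coordinates
`(1, c, r, |c|² - r²)` in `ℝ^(d+3)`; two balls meet iff a bilinear form is nonpositive. In any ball
realization, convex combinations of the vectors of a big and a small vertex allow to pass to the
hyperplane of the vertex `0`, and to the quotient by a vector in the span of the vertices `1, 2`;
this leaves a sign matrix of rank at most `d + 1`, and the rows showing the signs of the labels
bring this down to rank `3`. Conversely a realization of the order type gives a ball realization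
in which the column vertices are huge balls of almost the same size, and the row vertices are
balls touching them at almost the same point.
-/

namespace Pool.Agent.Lib.MP_065e13_lc.OrderTypeReduction

open Pool.Agent.Lib.MP_065e13_lc

/-- The vertices of the graph of a sign matrix with rows `I` and columns `J`: two vertices for each
column, two vertices for each row (labelled `true`, big, and `false`, small) and three further
vertices. -/
abbrev Vertex (I J : Type) : Type := (J × Bool) ⊕ (I × Bool) ⊕ Fin 3

/-- The edges of the graph of a sign matrix, listed up to symmetry: any two column vertices; any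
two row vertices; the vertices of column `j` with those of row `i` if `N i j` is `+`; the further
vertex `0` with the big column vertices and with the further vertex `1`; the further vertex `1`
with all column vertices and the big row vertices; the further vertex `2` with the big row
vertices. -/
def Edge {I J : Type} (N : I → J → Bool) (u w : Vertex I J) : Prop :=
  (∃ a b : J × Bool, u = .inl a ∧ w = .inl b) ∨
  (∃ a b : I × Bool, u = .inr (.inl a) ∧ w = .inr (.inl b)) ∨
  (∃ (a : J × Bool) (b : I × Bool), u = .inl a ∧ w = .inr (.inl b) ∧ N b.1 a.1 = true) ∨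
  (∃ j : J, u = .inl (j, true) ∧ w = .inr (.inr 0)) ∨
  (∃ a : J × Bool, u = .inl a ∧ w = .inr (.inr 1)) ∨
  (∃ i : I, u = .inr (.inl (i, true)) ∧ w = .inr (.inr 1)) ∨
  (∃ i : I, u = .inr (.inl (i, true)) ∧ w = .inr (.inr 2)) ∨
  (u = .inr (.inr 0) ∧ w = .inr (.inr 1))

/-- The graph of a sign matrix. -/
def matrixGraph {I J : Type} (N : I → J → Bool) : SimpleGraph (Vertex I J) where
  Adj u w := u ≠ w ∧ (Edge N u w ∨ Edge N w u)
  symm := ⟨fun _ _ h => ⟨h.1.symm, h.2.symm⟩⟩
  loopless := ⟨fun _ h => h.1 rfl⟩

/-- The sign matrix of an abstract order type `χ` on `n` points, for dimension `t + 2`. The columns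
are the pairs of a point `k` and a sign vector `ε` of length `t`. The rows are: one row which is
`+` everywhere; for all points `i < j` and all signs `σ, τ` a row with sign `σ` at `k = i`, sign
`τ` at `k = j`, and the orientation of the triple `(i, j, k)` at all other points `k` (rows with
`i ≥ j` are `+` everywhere); and for each `s` a row with entries `ε s`. -/
def signMatrix {n : ℕ} (t : ℕ) (χ : Fin n → Fin n → Fin n → Bool)
    (r : Option (Fin n × Fin n × Bool × Bool) ⊕ Fin t) (c : Fin n × (Fin t → Bool)) : Bool :=
  Sum.elim
    (fun o => Option.elim o true fun q =>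
      if q.1 < q.2.1 then
        (if c.1 = q.1 then q.2.2.1 else if c.1 = q.2.1 then q.2.2.2 else orient χ q.1 q.2.1 c.1)
      else true)
    (fun s => c.2 s) r

/-- The graph attached to the abstract order type `χ` in dimension `d`. -/
def otGraph (d : ℕ) {n : ℕ} (χ : Fin n → Fin n → Fin n → Bool) :
    SimpleGraph (Vertex (Option (Fin n × Fin n × Bool × Bool) ⊕ Fin (d - 2))
      (Fin n × (Fin (d - 2) → Bool))) :=
  matrixGraph (signMatrix (d - 2) χ)

/-- The identification with the vertices of the gadget graph used in the proof. -/
def vtxEquiv (I J : Type) : Vertex I J ≃ Vtx I J where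
  toFun u :=
    match u with
    | .inl (j, b) => .col j b
    | .inr (.inl (i, b)) => .row i b
    | .inr (.inr 0) => .z
    | .inr (.inr 1) => .x₁
    | .inr (.inr 2) => .x₂
  invFun u :=
    match u with
    | .col j b => .inl (j, b)
    | .row i b => .inr (.inl (i, b))
    | .z => .inr (.inr 0)
    | .x₁ => .inr (.inr 1)
    | .x₂ => .inr (.inr 2)
  left_inv := by
    rintro (⟨_, _⟩ | ⟨_, _⟩ | k)
    · rfl
    · rfl
    · fin_cases k <;> rfl
  right_inv := by rintro (_ | _ | _ | _ | _) <;> rfl

lemma edge_iff {I J : Type} (N : I → J → Bool) (u w : Vertex I J) :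
    Edge N u w ↔ adjHalf N (vtxEquiv I J u) (vtxEquiv I J w) := by
  rcases u with ⟨j, b⟩ | ⟨i, b⟩ | k
  · rcases w with ⟨j', b'⟩ | ⟨i', b'⟩ | k'
    · simp [Edge, vtxEquiv, adjHalf]
    · simp [Edge, vtxEquiv, adjHalf]
    · fin_cases k' <;> simp [Edge, vtxEquiv, adjHalf]
  · rcases w with ⟨j', b'⟩ | ⟨i', b'⟩ | k'
    · simp [Edge, vtxEquiv, adjHalf]
    · simp [Edge, vtxEquiv, adjHalf]
    · fin_cases k' <;> simp [Edge, vtxEquiv, adjHalf]
  · rcases w with ⟨j', b'⟩ | ⟨i', b'⟩ | k'
    · fin_cases k <;> simp [Edge, vtxEquiv, adjHalf]
    · fin_cases k <;> simp [Edge, vtxEquiv, adjHalf]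
    · fin_cases k <;> fin_cases k' <;> simp [Edge, vtxEquiv, adjHalf]

lemma adj_iff {I J : Type} (N : I → J → Bool) (u w : Vertex I J) :
    (matrixGraph N).Adj u w ↔ (gadget N).Adj (vtxEquiv I J u) (vtxEquiv I J w) := by
  change (u ≠ w ∧ (Edge N u w ∨ Edge N w u)) ↔ (_ ≠ _ ∧ (adjHalf N _ _ ∨ adjHalf N _ _))
  rw [edge_iff, edge_iff, (vtxEquiv I J).injective.ne_iff]

lemma isBallGraph_iff {d : ℕ} {I J : Type} (N : I → J → Bool) :
    IsBallGraph d (matrixGraph N) ↔ IsBallGraph d (gadget N) := by
  constructor
  · rintro ⟨c, r, hr, h⟩
    refine ⟨fun u => c ((vtxEquiv I J).symm u), fun u => r ((vtxEquiv I J).symm u),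
      fun u => hr _, fun u w huw => ?_⟩
    rw [← h _ _ ((vtxEquiv I J).symm.injective.ne huw), adj_iff, Equiv.apply_symm_apply,
      Equiv.apply_symm_apply]
  · rintro ⟨c, r, hr, h⟩
    refine ⟨fun u => c (vtxEquiv I J u), fun u => r (vtxEquiv I J u),
      fun u => hr _, fun u w huw => ?_⟩
    rw [← h _ _ ((vtxEquiv I J).injective.ne huw), adj_iff]

lemma signMatrix_eq {n : ℕ} (t : ℕ) (χ : Fin n → Fin n → Fin n → Bool) :
    signMatrix t χ = pad t none (otMatrix χ) := by
  funext r c
  rcases r with o | s
  · rcases o with _ | ⟨i, j, σ, τ⟩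
    · simp [signMatrix, pad]
    · simp [signMatrix, pad, otMatrix]
  · rfl

/-- For every `d ≥ 3`, the abstract order type `χ` on `n` points is realizable in the plane if and
only if the explicit graph `otGraph d χ` is a ball graph in `ℝ^d`; for fixed `d` the number of
vertices of this graph is quadratic in `n`. -/
theorem result (d : ℕ) (hd : 3 ≤ d) {n : ℕ} (χ : Fin n → Fin n → Fin n → Bool) :
    (OrderTypeRealizable χ ↔ IsBallGraph d (otGraph d χ)) ∧
      Nat.card (Vertex (Option (Fin n × Fin n × Bool × Bool) ⊕ Fin (d - 2))
        (Fin n × (Fin (d - 2) → Bool))) =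
          2 * (n * 2 ^ (d - 2)) + 2 * ((4 * n ^ 2 + 1) + (d - 2)) + 3 := by
  refine ⟨?_, ?_⟩
  · have h := signRankLE_iff_isBallGraph (k := 3) (d := d) hd (by omega) none (otMatrix χ)
    have e : d - 3 + 1 = d - 2 := by omega
    rw [e] at h
    rw [otGraph, isBallGraph_iff, signMatrix_eq]
    exact (signRankLE_iff χ).symm.trans h
  · rw [Nat.card_eq_fintype_card]
    simp only [Fintype.card_prod, Fintype.card_sum, Fintype.card_option, Fintype.card_fin,
      Fintype.card_bool, Fintype.card_fun]
    ring

end Pool.Agent.Lib.MP_065e13_lc.OrderTypeReduction
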