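import Pool.Agent.Lib.MP_065e13_lc.Gadget

/-!
# Ball realizations of the gadget graph
-/

namespace Pool.Agent.Lib.MP_065e13_lc

section Geometry

set_option linter.unusedSectionVars false

variable {E : Type*} [NormedAddCommGroup E] [InnerProductSpace ℝ E]

lemma norm_sq_add_smul {a e : E} (t : ℝ) (he : ‖e‖ = 1) (ha : inner ℝ e a = 0) :
    ‖a + t • e‖ ^ 2 = ‖a‖ ^ 2 + t ^ 2 := by
  rw [norm_add_sq_real, inner_smul_right, real_inner_comm, ha, norm_smul, he]
  simp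

lemma norm_le_of_sq {x : E} {R : ℝ} (hR : 0 ≤ R) (h : ‖x‖ ^ 2 ≤ R ^ 2) : ‖x‖ ≤ R :=
  (sq_le_sq₀ (norm_nonneg _) hR).1 h

lemma lt_norm_of_sq {x : E} {R : ℝ} (hR : 0 ≤ R) (h : R ^ 2 < ‖x‖ ^ 2) : R < ‖x‖ :=
  (sq_lt_sq₀ hR (norm_nonneg _)).1 h

/-- Centers. -/
noncomputable def ctr {I J : Type} (e f : E) (X : J → E) (m : I → E) (L : ℝ) : Vtx I J → E
  | .col j true => X j - (L + 1) • e
  | .col j false => X j - (L - 1) • e
  | .row i true => m i + (10 : ℝ) • e
  | .row i false => m i + (3 : ℝ) • e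
  | .z => -((6 * L) • e)
  | .x₁ => (4 * L + 6) • f
  | .x₂ => (10 : ℝ) • e

/-- Radii. -/
noncomputable def rad {I J : Type} (X : J → E) (m : I → E) (v : J → ℝ) (s : I → ℝ) (L : ℝ) :
    Vtx I J → ℝ
  | .col j true => (L + 1) + (2 * v j + ‖X j‖ ^ 2) / (2 * L)
  | .col j false => (L - 1) + (2 * v j + ‖X j‖ ^ 2) / (2 * L)
  | .row i true => 10 - (2 * s i - ‖m i‖ ^ 2) / (2 * L)
  | .row i false => 3 - (2 * s i - ‖m i‖ ^ 2) / (2 * L)
  | .z => 4 * L
  | .x₁ => 4 * L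
  | .x₂ => 1

/-- The adjacency condition between a column ball and a row ball. -/
lemma col_row_iff {e x m : E} {v s L R S a : ℝ} (he : ‖e‖ = 1) (hx : inner ℝ e x = 0)
    (hm : inner ℝ e m = 0) (hx1 : ‖x‖ ≤ 1) (hm1 : ‖m‖ ≤ 1) (hv : |v| ≤ 1) (hs : |s| ≤ 1)
    (hL : 100 ≤ L) (hR : R = L + a) (ha : |a| ≤ 1) (hS0 : 3 ≤ S) (hS : S ≤ 10) :
    (0 < v - s + inner ℝ m x → 100 ≤ L * (v - s + inner ℝ m x) →
      ‖(x - R • e) - (m + S • e)‖ ≤
        (R + (2 * v + ‖x‖ ^ 2) / (2 * L)) + (S - (2 * s - ‖m‖ ^ 2) / (2 * L))) ∧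
    (v - s + inner ℝ m x < 0 → 100 ≤ - (L * (v - s + inner ℝ m x)) →
      (R + (2 * v + ‖x‖ ^ 2) / (2 * L)) + (S - (2 * s - ‖m‖ ^ 2) / (2 * L)) <
        ‖(x - R • e) - (m + S • e)‖) := by
  have hL0 : 0 < L := by linarith
  set g := v - s + inner ℝ m x with hg
  set δ := (2 * v + ‖x‖ ^ 2) / (2 * L) - (2 * s - ‖m‖ ^ 2) / (2 * L) with hδ
  have hδL : 2 * L * δ = 2 * v + ‖x‖ ^ 2 - 2 * s + ‖m‖ ^ 2 := by
    rw [hδ]
    field_simp
    ring
  have hx0 := norm_nonneg x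
  have hm0 := norm_nonneg m
  obtain ⟨hv1, hv2⟩ := abs_le.1 hv
  obtain ⟨hs1, hs2⟩ := abs_le.1 hs
  obtain ⟨ha1, ha2⟩ := abs_le.1 ha
  have hδu : L * δ ≤ 3 := by nlinarith
  have hδl : -3 ≤ L * δ := by nlinarith
  have hδu' : δ ≤ 3 / 100 := by nlinarith
  have hδl' : -(3 / 100) ≤ δ := by nlinarith
  have hsum : (R + (2 * v + ‖x‖ ^ 2) / (2 * L)) + (S - (2 * s - ‖m‖ ^ 2) / (2 * L))
      = R + S + δ := by
    rw [hδ]
    ring
  have hvec : (x - R • e) - (m + S • e) = (x - m) + (-(R + S)) • e := by module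
  have hort : inner ℝ e (x - m) = 0 := by rw [inner_sub_right, hx, hm, sub_zero]
  have hnsq : ‖(x - R • e) - (m + S • e)‖ ^ 2 = ‖x‖ ^ 2 - 2 * inner ℝ m x + ‖m‖ ^ 2 +
      (R + S) ^ 2 := by
    rw [hvec, norm_sq_add_smul _ he hort, norm_sub_sq_real, real_inner_comm]
    ring
  have hRS : 0 ≤ R + S + δ := by
    rw [hR]
    linarith
  have herr1 : L * (2 * (S + a) * δ + δ ^ 2) ≤ 75 := by
    have h1 : L * (2 * (S + a) * δ + δ ^ 2) = (L * δ) * (2 * (S + a) + δ) := by ring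
    have h2 : 0 ≤ 2 * (S + a) + δ := by linarith
    have h3 := mul_le_mul_of_nonneg_right hδu h2
    rw [h1]
    linarith
  have herr2 : -75 ≤ L * (2 * (S + a) * δ + δ ^ 2) := by
    have h1 : L * (2 * (S + a) * δ + δ ^ 2) = (L * δ) * (2 * (S + a) + δ) := by ring
    have h2 : 0 ≤ 2 * (S + a) + δ := by linarith
    have h3 := mul_le_mul_of_nonneg_right hδl h2
    rw [h1]
    linarith
  have hdiff : (R + S + δ) ^ 2 - ‖(x - R • e) - (m + S • e)‖ ^ 2 =
      2 * g + (2 * (S + a) * δ + δ ^ 2) := by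
    rw [hnsq, hR, hg]
    linear_combination hδL
  constructor
  · intro hg0 hLg
    rw [hsum]
    refine norm_le_of_sq hRS ?_
    have h1 : L * (2 * g + (2 * (S + a) * δ + δ ^ 2)) =
      2 * (L * g) + L * (2 * (S + a) * δ + δ ^ 2) := by ring
    have h2 : 0 < L * (2 * g + (2 * (S + a) * δ + δ ^ 2)) := by
      rw [h1]
      linarith
    have h3 := pos_of_mul_pos_right h2 hL0.le
    linarith
  · intro hg0 hLg
    rw [hsum]
    refine lt_norm_of_sq hRS ?_
    have h1 : L * (2 * g + (2 * (S + a) * δ + δ ^ 2)) =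
      2 * (L * g) + L * (2 * (S + a) * δ + δ ^ 2) := by ring
    have h2 : L * (2 * g + (2 * (S + a) * δ + δ ^ 2)) < 0 := by
      rw [h1]
      linarith
    have : 2 * g + (2 * (S + a) * δ + δ ^ 2) < 0 := by
      by_contra hcon
      push Not at hcon
      have := mul_nonneg hL0.le hcon
      linarith
    linarith

lemma div_bound {a L : ℝ} (ha : |a| ≤ 3) (hL : 100 ≤ L) : |a / (2 * L)| ≤ 3 / 200 := by
  rw [abs_div, abs_of_pos (by linarith : (0 : ℝ) < 2 * L), div_le_iff₀ (by linarith)]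
  linarith

lemma tau_bound {x : E} {v L : ℝ} (hx1 : ‖x‖ ≤ 1) (hv : |v| ≤ 1) (hL : 100 ≤ L) :
    |(2 * v + ‖x‖ ^ 2) / (2 * L)| ≤ 3 / 200 := by
  refine div_bound ?_ hL
  obtain ⟨h1, h2⟩ := abs_le.1 hv
  have h3 := norm_nonneg x
  rw [abs_le]
  constructor <;> nlinarith

lemma sigma_bound {x : E} {v L : ℝ} (hx1 : ‖x‖ ≤ 1) (hv : |v| ≤ 1) (hL : 100 ≤ L) :
    |(2 * v - ‖x‖ ^ 2) / (2 * L)| ≤ 3 / 200 := by
  refine div_bound ?_ hL
  obtain ⟨h1, h2⟩ := abs_le.1 hv
  have h3 := norm_nonneg x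
  rw [abs_le]
  constructor <;> nlinarith

lemma col_col {e x x' : E} {R R' τ τ' L : ℝ} (he : ‖e‖ = 1) (hx1 : ‖x‖ ≤ 1) (hx1' : ‖x'‖ ≤ 1)
    (hL : 100 ≤ L) (hR : |R - L| ≤ 1) (hR' : |R' - L| ≤ 1) (hτ : |τ| ≤ 3 / 200)
    (hτ' : |τ'| ≤ 3 / 200) :
    ‖(x - R • e) - (x' - R' • e)‖ ≤ (R + τ) + (R' + τ') := by
  have hvec : (x - R • e) - (x' - R' • e) = (x - x') + (R' - R) • e := by module
  have h1 : ‖(x - x') + (R' - R) • e‖ ≤ ‖x - x'‖ + ‖(R' - R) • e‖ := norm_add_le _ _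
  have h2 : ‖x - x'‖ ≤ ‖x‖ + ‖x'‖ := norm_sub_le _ _
  have h3 : ‖(R' - R) • e‖ = |R' - R| := by rw [norm_smul, he, mul_one, Real.norm_eq_abs]
  obtain ⟨a1, a2⟩ := abs_le.1 hR
  obtain ⟨b1, b2⟩ := abs_le.1 hR'
  obtain ⟨c1, c2⟩ := abs_le.1 hτ
  obtain ⟨d1, d2⟩ := abs_le.1 hτ'
  have h4 : |R' - R| ≤ 2 := by
    rw [abs_le]
    constructor <;> linarith
  rw [hvec]
  linarith

lemma row_row {e m m' : E} {S S' σ σ' : ℝ} (he : ‖e‖ = 1) (hm1 : ‖m‖ ≤ 1) (hm1' : ‖m'‖ ≤ 1)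
    (hS : S = 3 ∨ S = 10) (hS' : S' = 3 ∨ S' = 10) (hσ : |σ| ≤ 3 / 200) (hσ' : |σ'| ≤ 3 / 200) :
    ‖(m + S • e) - (m' + S' • e)‖ ≤ (S - σ) + (S' - σ') := by
  have hvec : (m + S • e) - (m' + S' • e) = (m - m') + (S - S') • e := by module
  have h1 : ‖(m - m') + (S - S') • e‖ ≤ ‖m - m'‖ + ‖(S - S') • e‖ := norm_add_le _ _
  have h2 : ‖m - m'‖ ≤ ‖m‖ + ‖m'‖ := norm_sub_le _ _
  have h3 : ‖(S - S') • e‖ = |S - S'| := by rw [norm_smul, he, mul_one, Real.norm_eq_abs]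
  obtain ⟨c1, c2⟩ := abs_le.1 hσ
  obtain ⟨d1, d2⟩ := abs_le.1 hσ'
  have h4 : |S - S'| ≤ S + S' - 3 := by
    rcases hS with rfl | rfl <;> rcases hS' with rfl | rfl <;> norm_num [abs_le]
  rw [hvec]
  linarith

lemma col_z {e x : E} {R τ L : ℝ} (he : ‖e‖ = 1) (hx : inner ℝ e x = 0) (hx1 : ‖x‖ ≤ 1)
    (hL : 100 ≤ L) (hτ : |τ| ≤ 3 / 200) :
    (R = L + 1 → ‖(x - R • e) - (-((6 * L) • e))‖ ≤ (R + τ) + 4 * L) ∧
    (R = L - 1 → (R + τ) + 4 * L < ‖(x - R • e) - (-((6 * L) • e))‖) := by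
  obtain ⟨c1, c2⟩ := abs_le.1 hτ
  have h0 := norm_nonneg x
  have hvec : (x - R • e) - (-((6 * L) • e)) = x + (6 * L - R) • e := by module
  have hnsq := norm_sq_add_smul (6 * L - R) he hx
  rw [← hvec] at hnsq
  constructor
  · intro hR
    refine norm_le_of_sq (by linarith) ?_
    rw [hnsq, hR]
    nlinarith
  · intro hR
    refine lt_norm_of_sq (by linarith) ?_
    rw [hnsq, hR]
    nlinarith

lemma col_x₁ {e f x : E} {R τ L : ℝ} (he : ‖e‖ = 1) (hf : ‖f‖ = 1) (hef : inner ℝ e f = 0)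
    (hx : inner ℝ e x = 0) (hx1 : ‖x‖ ≤ 1) (hL : 100 ≤ L) (hR : |R - L| ≤ 1)
    (hτ : |τ| ≤ 3 / 200) :
    ‖(x - R • e) - (4 * L + 6) • f‖ ≤ (R + τ) + 4 * L := by
  obtain ⟨c1, c2⟩ := abs_le.1 hτ
  obtain ⟨a1, a2⟩ := abs_le.1 hR
  have hvec : (x - R • e) - (4 * L + 6) • f = (x - (4 * L + 6) • f) + (-R) • e := by module
  have hort : inner ℝ e (x - (4 * L + 6) • f) = 0 := by
    rw [inner_sub_right, inner_smul_right, hef, hx]
    simp
  have hnsq := norm_sq_add_smul (-R) he hort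
  rw [← hvec] at hnsq
  have h1 : ‖x - (4 * L + 6) • f‖ ≤ 4 * L + 7 := by
    refine (norm_sub_le _ _).trans ?_
    rw [norm_smul, hf, Real.norm_eq_abs, abs_of_pos (by linarith)]
    linarith
  have h2 := norm_nonneg (x - (4 * L + 6) • f)
  have h3 : ‖x - (4 * L + 6) • f‖ ^ 2 ≤ (4 * L + 7) ^ 2 := by gcongr
  refine norm_le_of_sq (by linarith) ?_
  rw [hnsq]
  have h4 : R ^ 2 ≤ (L + 1) ^ 2 := by
    refine pow_le_pow_left₀ (by linarith) (by linarith) 2
  have h5 : (5 * L - 2) ^ 2 ≤ (R + τ + 4 * L) ^ 2 := by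
    refine pow_le_pow_left₀ (by linarith) (by linarith) 2
  nlinarith

lemma col_x₂ {e x : E} {R τ L : ℝ} (he : ‖e‖ = 1) (hx : inner ℝ e x = 0) (hL : 100 ≤ L)
    (hR : |R - L| ≤ 1) (hτ : |τ| ≤ 3 / 200) :
    (R + τ) + 1 < ‖(x - R • e) - (10 : ℝ) • e‖ := by
  obtain ⟨c1, c2⟩ := abs_le.1 hτ
  obtain ⟨a1, a2⟩ := abs_le.1 hR
  have hvec : (x - R • e) - (10 : ℝ) • e = x + (-(R + 10)) • e := by module
  have hnsq := norm_sq_add_smul (-(R + 10)) he hx
  rw [← hvec] at hnsq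
  refine lt_norm_of_sq (by linarith) ?_
  rw [hnsq]
  have := sq_nonneg ‖x‖
  have h5 : (R + τ + 1) ^ 2 < (R + 10) ^ 2 := by
    refine pow_lt_pow_left₀ (by linarith) (by linarith) (by norm_num)
  nlinarith

lemma row_z {e m : E} {S σ L : ℝ} (he : ‖e‖ = 1) (hm : inner ℝ e m = 0) (hL : 100 ≤ L)
    (hS : S = 3 ∨ S = 10) (hσ : |σ| ≤ 3 / 200) :
    (S - σ) + 4 * L < ‖(m + S • e) - (-((6 * L) • e))‖ := by
  obtain ⟨c1, c2⟩ := abs_le.1 hσ
  have hS0 : 3 ≤ S := by rcases hS with rfl | rfl <;> norm_num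
  have hvec : (m + S • e) - (-((6 * L) • e)) = m + (S + 6 * L) • e := by module
  have hnsq := norm_sq_add_smul (S + 6 * L) he hm
  rw [← hvec] at hnsq
  refine lt_norm_of_sq (by linarith) ?_
  rw [hnsq]
  have := sq_nonneg ‖m‖
  have h5 : (S - σ + 4 * L) ^ 2 < (S + 6 * L) ^ 2 := by
    refine pow_lt_pow_left₀ (by linarith) (by linarith) (by norm_num)
  nlinarith

lemma row_x₁ {e f m : E} {S σ L : ℝ} (he : ‖e‖ = 1) (hf : ‖f‖ = 1) (hef : inner ℝ e f = 0)
    (hm : inner ℝ e m = 0) (hm1 : ‖m‖ ≤ 1) (hL : 100 ≤ L) (hσ : |σ| ≤ 3 / 200) :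
    (S = 10 → ‖(m + S • e) - (4 * L + 6) • f‖ ≤ (S - σ) + 4 * L) ∧
    (S = 3 → (S - σ) + 4 * L < ‖(m + S • e) - (4 * L + 6) • f‖) := by
  obtain ⟨c1, c2⟩ := abs_le.1 hσ
  have hvec : (m + S • e) - (4 * L + 6) • f = (m - (4 * L + 6) • f) + S • e := by module
  have hort : inner ℝ e (m - (4 * L + 6) • f) = 0 := by
    rw [inner_sub_right, inner_smul_right, hef, hm]
    simp
  have hnsq := norm_sq_add_smul S he hort
  rw [← hvec] at hnsq
  have hnf : ‖(4 * L + 6) • f‖ = 4 * L + 6 := by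
    rw [norm_smul, hf, Real.norm_eq_abs, abs_of_pos (by linarith)]
    ring
  have h1 : ‖m - (4 * L + 6) • f‖ ≤ 4 * L + 7 := by
    refine (norm_sub_le _ _).trans ?_
    rw [hnf]
    linarith
  have h1' : 4 * L + 5 ≤ ‖m - (4 * L + 6) • f‖ := by
    have := norm_sub_norm_le ((4 * L + 6) • f) m
    rw [norm_sub_rev] at this
    rw [hnf] at this
    linarith
  have h2 := norm_nonneg (m - (4 * L + 6) • f)
  constructor
  · intro hS
    have h3 : ‖m - (4 * L + 6) • f‖ ^ 2 ≤ (4 * L + 7) ^ 2 := by gcongr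
    refine norm_le_of_sq (by linarith) ?_
    rw [hnsq, hS]
    have h5 : (4 * L + 9) ^ 2 ≤ (10 - σ + 4 * L) ^ 2 := by
      refine pow_le_pow_left₀ (by linarith) (by linarith) 2
    nlinarith
  · intro hS
    have h3 : (4 * L + 5) ^ 2 ≤ ‖m - (4 * L + 6) • f‖ ^ 2 := by
      refine pow_le_pow_left₀ (by linarith) h1' 2
    refine lt_norm_of_sq (by linarith) ?_
    rw [hnsq, hS]
    have h5 : (3 - σ + 4 * L) ^ 2 ≤ (4 * L + 5) ^ 2 := by
      refine pow_le_pow_left₀ (by linarith) (by linarith) 2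
    nlinarith

lemma row_x₂ {e m : E} {S σ : ℝ} (he : ‖e‖ = 1) (hm : inner ℝ e m = 0) (hm1 : ‖m‖ ≤ 1)
    (hσ : |σ| ≤ 3 / 200) :
    (S = 10 → ‖(m + S • e) - (10 : ℝ) • e‖ ≤ (S - σ) + 1) ∧
    (S = 3 → (S - σ) + 1 < ‖(m + S • e) - (10 : ℝ) • e‖) := by
  obtain ⟨c1, c2⟩ := abs_le.1 hσ
  have hvec : (m + S • e) - (10 : ℝ) • e = m + (S - 10) • e := by module
  have hnsq := norm_sq_add_smul (S - 10) he hm
  rw [← hvec] at hnsq
  have h0 := norm_nonneg m
  constructor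
  · intro hS
    refine norm_le_of_sq (by linarith) ?_
    rw [hnsq, hS]
    nlinarith
  · intro hS
    refine lt_norm_of_sq (by linarith) ?_
    rw [hnsq, hS]
    nlinarith

lemma z_x₁ {e f : E} {L : ℝ} (he : ‖e‖ = 1) (hf : ‖f‖ = 1) (hef : inner ℝ e f = 0)
    (hL : 100 ≤ L) : ‖(-((6 * L) • e)) - (4 * L + 6) • f‖ ≤ 4 * L + 4 * L := by
  have hvec : (-((6 * L) • e)) - (4 * L + 6) • f = (-(4 * L + 6)) • f + (-(6 * L)) • e := by module
  have hort : inner ℝ e ((-(4 * L + 6)) • f) = 0 := by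
    rw [inner_smul_right, hef, mul_zero]
  have hnsq := norm_sq_add_smul (-(6 * L)) he hort
  rw [← hvec, norm_smul, hf, Real.norm_eq_abs, mul_one, sq_abs] at hnsq
  refine norm_le_of_sq (by linarith) ?_
  rw [hnsq]
  nlinarith

lemma z_x₂ {e : E} {L : ℝ} (he : ‖e‖ = 1) (hL : 100 ≤ L) :
    4 * L + 1 < ‖(-((6 * L) • e)) - (10 : ℝ) • e‖ := by
  have hvec : (-((6 * L) • e)) - (10 : ℝ) • e = (-(6 * L + 10)) • e := by module
  rw [hvec, norm_smul, he, mul_one, Real.norm_eq_abs, abs_neg, abs_of_pos (by linarith)]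
  linarith

lemma x₁_x₂ {e f : E} {L : ℝ} (he : ‖e‖ = 1) (hf : ‖f‖ = 1) (hef : inner ℝ e f = 0)
    (hL : 100 ≤ L) : 4 * L + 1 < ‖(4 * L + 6) • f - (10 : ℝ) • e‖ := by
  have hvec : (4 * L + 6) • f - (10 : ℝ) • e = (4 * L + 6) • f + (-10 : ℝ) • e := by module
  have hort : inner ℝ e ((4 * L + 6) • f) = 0 := by
    rw [inner_smul_right, hef, mul_zero]
  have hnsq := norm_sq_add_smul (-10 : ℝ) he hort
  rw [← hvec, norm_smul, hf, Real.norm_eq_abs, mul_one, sq_abs] at hnsq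
  refine lt_norm_of_sq (by linarith) ?_
  rw [hnsq]
  nlinarith

end Geometry

/-- A uniform margin for finitely many nonzero numbers. -/
lemma exists_margin {I J : Type} [Finite I] [Finite J] (N : I → J → Bool) (g : I → J → ℝ)
    (h₁ : ∀ i j, N i j = true → 0 < g i j) (h₂ : ∀ i j, N i j = false → g i j < 0) :
    ∃ L : ℝ, 100 ≤ L ∧ (∀ i j, N i j = true → 100 ≤ L * g i j) ∧
      (∀ i j, N i j = false → 100 ≤ -(L * g i j)) := by
  have key : ∀ᶠ L in Filter.atTop, ∀ i j, (N i j = true → 100 ≤ L * g i j) ∧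
      (N i j = false → 100 ≤ -(L * g i j)) := by
    rw [Filter.eventually_all]
    intro i
    rw [Filter.eventually_all]
    intro j
    cases hij : N i j
    · have h := h₂ i j hij
      filter_upwards [Filter.eventually_ge_atTop (100 / (-(g i j)))] with L hL
      refine ⟨fun h => by simp at h, fun _ => ?_⟩
      rw [div_le_iff₀ (by linarith)] at hL
      linarith
    · have h := h₁ i j hij
      filter_upwards [Filter.eventually_ge_atTop (100 / (g i j))] with L hL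
      refine ⟨fun _ => ?_, fun h => by simp at h⟩
      rw [div_le_iff₀ (by linarith)] at hL
      linarith
  obtain ⟨L, hL, hL'⟩ := (key.and (Filter.eventually_ge_atTop 100)).exists
  exact ⟨L, hL', fun i j => (hL i j).1, fun i j => (hL i j).2⟩

/-- The gadget graph of an above-below pattern of points and hyperplanes is a ball graph,
normalised version. -/
theorem isBallGraph_of_data_scaled {d : ℕ} {I J : Type} [Finite I] [Finite J] (N : I → J → Bool)
    (e f : EuclideanSpace ℝ (Fin d)) (he : ‖e‖ = 1) (hf : ‖f‖ = 1) (hef : inner ℝ e f = 0)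
    (X : J → EuclideanSpace ℝ (Fin d)) (m : I → EuclideanSpace ℝ (Fin d)) (v : J → ℝ) (s : I → ℝ)
    (hX : ∀ j, inner ℝ e (X j) = 0) (hm : ∀ i, inner ℝ e (m i) = 0)
    (hX1 : ∀ j, ‖X j‖ ≤ 1) (hm1 : ∀ i, ‖m i‖ ≤ 1) (hv : ∀ j, |v j| ≤ 1) (hs : ∀ i, |s i| ≤ 1)
    (h₁ : ∀ i j, N i j = true → 0 < v j - s i + inner ℝ (m i) (X j))
    (h₂ : ∀ i j, N i j = false → v j - s i + inner ℝ (m i) (X j) < 0) :
    IsBallGraph d (gadget N) := by
  obtain ⟨L, hL, hL₁, hL₂⟩ := exists_margin N (fun i j => v j - s i + inner ℝ (m i) (X j)) h₁ h₂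
  have hτ : ∀ j, |(2 * v j + ‖X j‖ ^ 2) / (2 * L)| ≤ 3 / 200 := fun j =>
    tau_bound (hX1 j) (hv j) hL
  have hσ : ∀ i, |(2 * s i - ‖m i‖ ^ 2) / (2 * L)| ≤ 3 / 200 := fun i =>
    sigma_bound (hm1 i) (hs i) hL
  have hp1 : |L + 1 - L| ≤ 1 := by norm_num
  have hp2 : |L - 1 - L| ≤ 1 := by norm_num
  refine ⟨ctr e f X m L, rad X m v s L, ?_, ?_⟩
  · intro u
    match u with
    | .col j true => have := abs_le.1 (hτ j); simp only [rad]; linarith
    | .col j false => have := abs_le.1 (hτ j); simp only [rad]; linarith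
    | .row i true => have := abs_le.1 (hσ i); simp only [rad]; linarith
    | .row i false => have := abs_le.1 (hσ i); simp only [rad]; linarith
    | .z => simp only [rad]; linarith
    | .x₁ => simp only [rad]; linarith
    | .x₂ => simp only [rad]; norm_num
  · have hrad : ∀ u, 0 < rad X m v s L u := by
      intro u
      match u with
      | .col j true => have := abs_le.1 (hτ j); simp only [rad]; linarith
      | .col j false => have := abs_le.1 (hτ j); simp only [rad]; linarith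
      | .row i true => have := abs_le.1 (hσ i); simp only [rad]; linarith
      | .row i false => have := abs_le.1 (hσ i); simp only [rad]; linarith
      | .z => simp only [rad]; linarith
      | .x₁ => simp only [rad]; linarith
      | .x₂ => simp only [rad]; norm_num
    -- the condition for one ordered pair
    let Good : Vtx I J → Vtx I J → Prop := fun u w =>
      ((adjHalf N u w ∨ adjHalf N w u) →
        ‖ctr e f X m L u - ctr e f X m L w‖ ≤ rad X m v s L u + rad X m v s L w) ∧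
      (¬ (adjHalf N u w ∨ adjHalf N w u) →
        rad X m v s L u + rad X m v s L w < ‖ctr e f X m L u - ctr e f X m L w‖)
    have hsymm : ∀ u w, Good u w → Good w u := by
      intro u w h
      refine ⟨fun h' => ?_, fun h' => ?_⟩
      · rw [norm_sub_rev, add_comm]
        exact h.1 h'.symm
      · rw [norm_sub_rev, add_comm (rad X m v s L w)]
        exact h.2 (fun h'' => h' h''.symm)
    have hcr : ∀ j b i b', Good (.col j b) (.row i b') := by
      intro j b i b'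
      have h3 := hL₁ i j
      have h4 := hL₂ i j
      have h5 := h₁ i j
      have h6 := h₂ i j
      have key : ∀ (R S a : ℝ), R = L + a → |a| ≤ 1 → 3 ≤ S → S ≤ 10 →
          (N i j = true → ‖(X j - R • e) - (m i + S • e)‖ ≤
            (R + (2 * v j + ‖X j‖ ^ 2) / (2 * L)) + (S - (2 * s i - ‖m i‖ ^ 2) / (2 * L))) ∧
          (¬ N i j = true →
            (R + (2 * v j + ‖X j‖ ^ 2) / (2 * L)) + (S - (2 * s i - ‖m i‖ ^ 2) / (2 * L)) <
              ‖(X j - R • e) - (m i + S • e)‖) := by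
        intro R S a hR ha hS0 hS
        have := col_row_iff he (hX j) (hm i) (hX1 j) (hm1 i) (hv j) (hs i) hL hR ha hS0 hS
        refine ⟨fun h => this.1 (h5 h) (h3 h), fun h => ?_⟩
        rw [Bool.not_eq_true] at h
        exact this.2 (h6 h) (h4 h)
      simp only [Good, adjHalf, or_false]
      cases b <;> cases b' <;> simp only [ctr, rad]
      · exact key (L - 1) 3 (-1) (by ring) (by norm_num) (by norm_num) (by norm_num)
      · exact key (L - 1) 10 (-1) (by ring) (by norm_num) (by norm_num) (by norm_num)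
      · exact key (L + 1) 3 1 (by ring) (by norm_num) (by norm_num) (by norm_num)
      · exact key (L + 1) 10 1 (by ring) (by norm_num) (by norm_num) (by norm_num)
    have hcc : ∀ j b j' b', Good (.col j b) (.col j' b') := by
      intro j b j' b'
      refine ⟨fun _ => ?_, fun h => absurd (by simp [adjHalf]) h⟩
      cases b <;> cases b' <;> simp only [ctr, rad]
      · exact col_col he (hX1 j) (hX1 j') hL hp2 hp2 (hτ j) (hτ j')
      · exact col_col he (hX1 j) (hX1 j') hL hp2 hp1 (hτ j) (hτ j')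
      · exact col_col he (hX1 j) (hX1 j') hL hp1 hp2 (hτ j) (hτ j')
      · exact col_col he (hX1 j) (hX1 j') hL hp1 hp1 (hτ j) (hτ j')
    have hrr : ∀ i b i' b', Good (.row i b) (.row i' b') := by
      intro i b i' b'
      refine ⟨fun _ => ?_, fun h => absurd (by simp [adjHalf]) h⟩
      cases b <;> cases b' <;> simp only [ctr, rad]
      · exact row_row he (hm1 i) (hm1 i') (by norm_num) (by norm_num) (hσ i) (hσ i')
      · exact row_row he (hm1 i) (hm1 i') (by norm_num) (by norm_num) (hσ i) (hσ i')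
      · exact row_row he (hm1 i) (hm1 i') (by norm_num) (by norm_num) (hσ i) (hσ i')
      · exact row_row he (hm1 i) (hm1 i') (by norm_num) (by norm_num) (hσ i) (hσ i')
    have hcz : ∀ j b, Good (.col j b) .z := by
      intro j b
      cases b
      · refine ⟨fun h => by simp [adjHalf] at h, fun _ => ?_⟩
        simp only [ctr, rad]
        exact (col_z he (hX j) (hX1 j) hL (hτ j)).2 rfl
      · refine ⟨fun _ => ?_, fun h => absurd (by simp [adjHalf]) h⟩
        simp only [ctr, rad]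
        exact (col_z he (hX j) (hX1 j) hL (hτ j)).1 rfl
    have hcx₁ : ∀ j b, Good (.col j b) .x₁ := by
      intro j b
      refine ⟨fun _ => ?_, fun h => absurd (by simp [adjHalf]) h⟩
      cases b <;> simp only [ctr, rad]
      · exact col_x₁ he hf hef (hX j) (hX1 j) hL hp2 (hτ j)
      · exact col_x₁ he hf hef (hX j) (hX1 j) hL hp1 (hτ j)
    have hcx₂ : ∀ j b, Good (.col j b) .x₂ := by
      intro j b
      refine ⟨fun h => by simp [adjHalf] at h, fun _ => ?_⟩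
      cases b <;> simp only [ctr, rad]
      · exact col_x₂ he (hX j) hL hp2 (hτ j)
      · exact col_x₂ he (hX j) hL hp1 (hτ j)
    have hrz : ∀ i b, Good (.row i b) .z := by
      intro i b
      refine ⟨fun h => by simp [adjHalf] at h, fun _ => ?_⟩
      cases b <;> simp only [ctr, rad]
      · exact row_z he (hm i) hL (by norm_num) (hσ i)
      · exact row_z he (hm i) hL (by norm_num) (hσ i)
    have hrx₁ : ∀ i b, Good (.row i b) .x₁ := by
      intro i b
      cases b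
      · refine ⟨fun h => by simp [adjHalf] at h, fun _ => ?_⟩
        simp only [ctr, rad]
        exact (row_x₁ he hf hef (hm i) (hm1 i) hL (hσ i)).2 rfl
      · refine ⟨fun _ => ?_, fun h => absurd (by simp [adjHalf]) h⟩
        simp only [ctr, rad]
        exact (row_x₁ he hf hef (hm i) (hm1 i) hL (hσ i)).1 rfl
    have hrx₂ : ∀ i b, Good (.row i b) .x₂ := by
      intro i b
      cases b
      · refine ⟨fun h => by simp [adjHalf] at h, fun _ => ?_⟩
        simp only [ctr, rad]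
        exact (row_x₂ he (hm i) (hm1 i) (hσ i)).2 rfl
      · refine ⟨fun _ => ?_, fun h => absurd (by simp [adjHalf]) h⟩
        simp only [ctr, rad]
        exact (row_x₂ he (hm i) (hm1 i) (hσ i)).1 rfl
    have hzx₁ : Good .z .x₁ := by
      refine ⟨fun _ => ?_, fun h => absurd (by simp [adjHalf]) h⟩
      simp only [ctr, rad]
      exact z_x₁ he hf hef hL
    have hzx₂ : Good .z .x₂ := by
      refine ⟨fun h => by simp [adjHalf] at h, fun _ => ?_⟩
      simp only [ctr, rad]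
      exact z_x₂ he hL
    have hxx : Good .x₁ .x₂ := by
      refine ⟨fun h => by simp [adjHalf] at h, fun _ => ?_⟩
      simp only [ctr, rad]
      exact x₁_x₂ he hf hef hL
    have hall : ∀ u w, u ≠ w → Good u w := by
      intro u w huw
      match u, w, huw with
      | .col j b, .col j' b', _ => exact hcc _ _ _ _
      | .col j b, .row i b', _ => exact hcr _ _ _ _
      | .col j b, .z, _ => exact hcz _ _
      | .col j b, .x₁, _ => exact hcx₁ _ _
      | .col j b, .x₂, _ => exact hcx₂ _ _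
      | .row i b, .col j b', _ => exact hsymm _ _ (hcr _ _ _ _)
      | .row i b, .row i' b', _ => exact hrr _ _ _ _
      | .row i b, .z, _ => exact hrz _ _
      | .row i b, .x₁, _ => exact hrx₁ _ _
      | .row i b, .x₂, _ => exact hrx₂ _ _
      | .z, .col j b, _ => exact hsymm _ _ (hcz _ _)
      | .z, .row i b, _ => exact hsymm _ _ (hrz _ _)
      | .z, .z, h => exact absurd rfl h
      | .z, .x₁, _ => exact hzx₁
      | .z, .x₂, _ => exact hzx₂
      | .x₁, .col j b, _ => exact hsymm _ _ (hcx₁ _ _)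
      | .x₁, .row i b, _ => exact hsymm _ _ (hrx₁ _ _)
      | .x₁, .z, _ => exact hsymm _ _ hzx₁
      | .x₁, .x₁, h => exact absurd rfl h
      | .x₁, .x₂, _ => exact hxx
      | .x₂, .col j b, _ => exact hsymm _ _ (hcx₂ _ _)
      | .x₂, .row i b, _ => exact hsymm _ _ (hrx₂ _ _)
      | .x₂, .z, _ => exact hsymm _ _ hzx₂
      | .x₂, .x₁, _ => exact hsymm _ _ hxx
      | .x₂, .x₂, h => exact absurd rfl h
    intro u w huw
    have hg := hall u w huw
    rw [← Set.not_disjoint_iff_nonempty_inter,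
      disjoint_closedBall_closedBall_iff (hrad u).le (hrad w).le, dist_eq_norm, not_lt]
    constructor
    · intro h
      exact hg.1 h.2
    · intro h
      refine ⟨huw, ?_⟩
      by_contra hcon
      exact absurd (hg.2 hcon) (not_lt.2 h)

/-- The gadget graph of an above-below pattern of points and hyperplanes is a ball graph. -/
theorem isBallGraph_of_data {d : ℕ} {I J : Type} [Finite I] [Finite J] (N : I → J → Bool)
    (e f : EuclideanSpace ℝ (Fin d)) (he : ‖e‖ = 1) (hf : ‖f‖ = 1) (hef : inner ℝ e f = 0)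
    (X : J → EuclideanSpace ℝ (Fin d)) (m : I → EuclideanSpace ℝ (Fin d)) (v : J → ℝ) (s : I → ℝ)
    (hX : ∀ j, inner ℝ e (X j) = 0) (hm : ∀ i, inner ℝ e (m i) = 0)
    (h₁ : ∀ i j, N i j = true → 0 < v j - s i + inner ℝ (m i) (X j))
    (h₂ : ∀ i j, N i j = false → v j - s i + inner ℝ (m i) (X j) < 0) :
    IsBallGraph d (gadget N) := by
  obtain ⟨B, hB1, hBX, hBm, hBv, hBs⟩ : ∃ B : ℝ, 1 ≤ B ∧ (∀ j, ‖X j‖ ≤ B) ∧ (∀ i, ‖m i‖ ≤ B) ∧
      (∀ j, |v j| ≤ B) ∧ (∀ i, |s i| ≤ B) := by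
    have key : ∀ᶠ B in Filter.atTop, (∀ j, ‖X j‖ ≤ B) ∧ (∀ i, ‖m i‖ ≤ B) ∧
      (∀ j, |v j| ≤ B) ∧ (∀ i, |s i| ≤ B) := by
      refine Filter.Eventually.and ?_ (Filter.Eventually.and ?_ (Filter.Eventually.and ?_ ?_))
      all_goals
        rw [Filter.eventually_all]
        intro a
        exact Filter.eventually_ge_atTop _
    obtain ⟨B, hB, hB1⟩ := (key.and (Filter.eventually_ge_atTop 1)).exists
    exact ⟨B, hB1, hB.1, hB.2.1, hB.2.2.1, hB.2.2.2⟩
  have hB0 : 0 < B := by linarith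
  have hBi : 0 < B⁻¹ := inv_pos.2 hB0
  have hBB : B ≤ B ^ 2 := by nlinarith
  have hnorm : ∀ x : EuclideanSpace ℝ (Fin d), ‖x‖ ≤ B → ‖B⁻¹ • x‖ ≤ 1 := by
    intro x hx
    rw [norm_smul, Real.norm_eq_abs, abs_of_pos hBi, inv_mul_le_iff₀ hB0]
    linarith
  have habs : ∀ x : ℝ, |x| ≤ B → |x / B ^ 2| ≤ 1 := by
    intro x hx
    rw [abs_div, abs_of_pos (by positivity : (0 : ℝ) < B ^ 2), div_le_one (by positivity)]
    linarith
  have hval : ∀ i j, v j / B ^ 2 - s i / B ^ 2 + inner ℝ (B⁻¹ • m i) (B⁻¹ • X j) =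
      (v j - s i + inner ℝ (m i) (X j)) / B ^ 2 := by
    intro i j
    rw [inner_smul_left, inner_smul_right]
    simp only [RCLike.conj_to_real]
    field_simp
  refine isBallGraph_of_data_scaled N e f he hf hef (fun j => B⁻¹ • X j) (fun i => B⁻¹ • m i)
    (fun j => v j / B ^ 2) (fun i => s i / B ^ 2) ?_ ?_ ?_ ?_ ?_ ?_ ?_ ?_
  · intro j
    rw [inner_smul_right, hX j, mul_zero]
  · intro i
    rw [inner_smul_right, hm i, mul_zero]
  · exact fun j => hnorm _ (hBX j)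
  · exact fun i => hnorm _ (hBm i)
  · exact fun j => habs _ (hBv j)
  · exact fun i => habs _ (hBs i)
  · intro i j hij
    rw [hval]
    exact div_pos (h₁ i j hij) (by positivity)
  · intro i j hij
    rw [hval]
    exact div_neg_of_neg_of_pos (h₂ i j hij) (by positivity)

end Pool.Agent.Lib.MP_065e13_lc
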